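import Mathlib

/-!
# Jordan bases of nilpotent endomorphisms
-/

namespace Pool.Agent.Helper58.KW

open Polynomial Module

theorem basis_quot {k : Type*} [Field k] (n : ℕ) :
    ∃ b : Basis (Fin n) k (k[X] ⧸ Submodule.span k[X] {(X : k[X]) ^ n}),
      ∀ j, b j = Submodule.Quotient.mk ((X : k[X]) ^ (j : ℕ)) := by
  have h1 : ((X : k[X]) ^ n).Monic := monic_X_pow n
  have h2 : ((X : k[X]) ^ n).natDegree = n := natDegree_X_pow n
  have key : ∃ b : Basis (Fin n) k (AdjoinRoot ((X : k[X]) ^ n)),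
      ∀ j, b j = AdjoinRoot.mk _ ((X : k[X]) ^ (j : ℕ)) := by
    refine ⟨(AdjoinRoot.powerBasis' h1).basis.reindex (finCongr h2), fun j => ?_⟩
    rw [Basis.reindex_apply, map_pow, AdjoinRoot.mk_X]
    exact (AdjoinRoot.powerBasis' h1).basis_eq_pow _
  exact key

theorem dfinsupp_basis_apply {k : Type*} [Field k] {ι : Type*} [DecidableEq ι] {M : ι → Type*}
    [∀ i, AddCommMonoid (M i)] [∀ i, Module k (M i)] {η : ι → Type*}
    (b : ∀ i, Basis (η i) k (M i)) (i : ι) (j : η i) :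
    DFinsupp.basis b ⟨i, j⟩ = DFinsupp.single i (b i j) := by
  apply (DFinsupp.basis b).repr.injective
  rw [Basis.repr_self]
  unfold DFinsupp.basis
  simp only [LinearEquiv.trans_apply]
  rw [LinearEquiv.eq_symm_apply]
  have h1 : (sigmaFinsuppLequivDFinsupp k) (Finsupp.single (⟨i, j⟩ : Σ i, η i) (1 : k)) =
      DFinsupp.single i (Finsupp.single j (1 : k)) := sigmaFinsuppEquivDFinsupp_single _ _
  rw [h1]
  simp

theorem exists_jordan {k : Type*} [Field k] {V : Type*} [AddCommGroup V] [Module k V]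
    [FiniteDimensional k V] (T : V →ₗ[k] V) (p : ℕ) (hT : T ^ p = 0) :
    ∃ (d : ℕ) (n : Fin d → ℕ) (e : Basis (Σ i, Fin (n i)) k V),
      ∀ i (j : Fin (n i)), T (e ⟨i, j⟩) =
        if h : j.1 + 1 < n i then e ⟨i, ⟨j.1 + 1, h⟩⟩ else 0 := by
  classical
  have hM : Module.IsTorsion' (AEval' T) (Submonoid.powers (X : k[X])) := by
    intro x
    refine ⟨⟨X ^ p, p, rfl⟩, ?_⟩
    obtain ⟨x, rfl⟩ := (AEval'.of T).surjective x
    show (X ^ p : k[X]) • (AEval'.of T) x = 0
    rw [AEval'.X_pow_smul_of, hT]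
    simp
  obtain ⟨d, n, ⟨f⟩⟩ := torsion_by_prime_power_decomposition (irreducible_X (R := k)) hM
  choose b hb using fun i => basis_quot (k := k) (n i)
  let B : Basis (Σ i, Fin (n i)) k (DirectSum (Fin d) fun i =>
    k[X] ⧸ Submodule.span k[X] {(X : k[X]) ^ (n i)}) := DFinsupp.basis b
  let F : V ≃ₗ[k] DirectSum (Fin d) fun i =>
    k[X] ⧸ Submodule.span k[X] {(X : k[X]) ^ (n i)} :=
    (AEval'.of T).trans (f.restrictScalars k)
  have hB : ∀ i j, B ⟨i, j⟩ = DirectSum.lof k[X] _ _ i (b i j) := by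
    intro i j
    show DFinsupp.basis b ⟨i, j⟩ = _
    rw [dfinsupp_basis_apply]
    rfl
  have hF : ∀ v, F (T v) = (X : k[X]) • F v := by
    intro v
    show f (AEval'.of T (T v)) = (X : k[X]) • f (AEval'.of T v)
    rw [← map_smul, AEval'.X_smul_of]
  refine ⟨d, n, B.map F.symm, fun i j => ?_⟩
  apply F.injective
  rw [hF, Basis.map_apply, F.apply_symm_apply, hB, ← map_smul, hb, ← Submodule.Quotient.mk_smul,
    smul_eq_mul, ← pow_succ']
  split_ifs with h
  · rw [Basis.map_apply, F.apply_symm_apply, hB, hb]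
  · have h1 : n i = j.1 + 1 := by
      have := j.2
      omega
    rw [map_zero, ← h1]
    rw [(Submodule.Quotient.mk_eq_zero _).2 (Submodule.mem_span_singleton_self _), map_zero]

end Pool.Agent.Helper58.KW
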