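import Mathlib

/-!
# Powers of derivations in characteristic `p`
-/

namespace Pool.Agent.Helper58.KW

open Finset

section leib

variable {k : Type*} [Field k] {A : Type*} [Ring A] [Algebra k A]

/-- Leibniz formula for the powers of a derivation. -/
theorem leib_pow (D : A →ₗ[k] A) (hD : ∀ a b, D (a * b) = D a * b + a * D b) (n : ℕ) (a b : A) :
    (D ^ n) (a * b) = ∑ ij ∈ antidiagonal n, n.choose ij.1 • ((D ^ ij.1) a * (D ^ ij.2) b) := by
  induction n with
  | zero => simp
  | succ n ih =>
    rw [Finset.sum_antidiagonal_choose_succ_nsmul (fun i j => (D ^ i) a * (D ^ j) b) n]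
    rw [pow_succ', Module.End.mul_apply, ih, map_sum]
    have h1 : ∀ ij ∈ antidiagonal n, D (n.choose ij.1 • ((D ^ ij.1) a * (D ^ ij.2) b)) =
        n.choose ij.1 • ((D ^ ij.1) a * (D ^ (ij.2 + 1)) b) +
          n.choose ij.2 • ((D ^ (ij.1 + 1)) a * (D ^ ij.2) b) := by
      intro ij hij
      have h2 : n.choose ij.1 = n.choose ij.2 := by
        rw [HasAntidiagonal.mem_antidiagonal] at hij
        rw [← hij, Nat.choose_symm_add]
      rw [map_nsmul, hD, smul_add, add_comm, pow_succ' D ij.2, pow_succ' D ij.1,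
        Module.End.mul_apply, Module.End.mul_apply, ← h2]
    rw [Finset.sum_congr rfl h1, Finset.sum_add_distrib]

/-- In characteristic `p`, the `p`-th power of a derivation is a derivation. -/
theorem leib_char (p : ℕ) [hp : Fact p.Prime] [CharP k p] (D : A →ₗ[k] A)
    (hD : ∀ a b, D (a * b) = D a * b + a * D b) (a b : A) :
    (D ^ p) (a * b) = (D ^ p) a * b + a * (D ^ p) b := by
  rw [leib_pow D hD]
  have hp0 := hp.out.pos
  rw [← Finset.sum_subset (s₁ := {(p, 0), (0, p)})]
  · rw [Finset.sum_pair (by simp [hp0.ne'])]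
    simp
  · intro x hx
    simp only [mem_insert, mem_singleton] at hx
    rcases hx with rfl | rfl <;> simp
  · intro x hx hx2
    rw [HasAntidiagonal.mem_antidiagonal] at hx
    simp only [mem_insert, mem_singleton, not_or] at hx2
    have h1 : x.1 ≠ 0 := by
      intro h
      apply hx2.2
      ext
      · exact h
      · simp only
        omega
    have h2 : x.1 < p := by
      rcases lt_or_eq_of_le (show x.1 ≤ p by omega) with h | h
      · exact h
      · exfalso
        apply hx2.1
        ext
        · exact h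
        · simp only
          omega
    have h3 : p ∣ p.choose x.1 := hp.out.dvd_choose_self h1 h2
    obtain ⟨c, hc⟩ := h3
    have h4 : ((p.choose x.1 : ℕ) : k) = 0 := by
      rw [hc]
      simp
    rw [← Nat.cast_smul_eq_nsmul k, h4, zero_smul]

theorem leib_one (D : A →ₗ[k] A) (hD : ∀ a b, D (a * b) = D a * b + a * D b) : D 1 = 0 := by
  have h := hD 1 1
  simp only [mul_one, one_mul] at h
  have h2 : D 1 + D 1 - D 1 = D 1 - D 1 := by rw [← h]
  simpa using h2

end leib

section gen

variable {k : Type*} [Field k] {M : Type*} [AddCommGroup M] [Module k M]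

/-- The operators `D`, `F` with `[D, F] = b` on a vector killed by `D`. -/
theorem pow_pow_apply (D F : M →ₗ[k] M) (N : Submodule k M) (b : k)
    (hFN : ∀ f ∈ N, F f ∈ N) (hDF : ∀ f ∈ N, D (F f) = F (D f) + b • f) {s : M} (hs : s ∈ N)
    (hDs : D s = 0) (n : ℕ) : (D ^ n) ((F ^ n) s) = ((n.factorial : k) * b ^ n) • s := by
  have hF : ∀ n : ℕ, (F ^ n) s ∈ N := by
    intro n
    induction n with
    | zero => simpa using hs
    | succ n ih =>
      rw [pow_succ', Module.End.mul_apply]
      exact hFN _ ih
  have h1 : ∀ n : ℕ, D ((F ^ (n + 1)) s) = ((n + 1 : ℕ) * b) • (F ^ n) s := by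
    intro n
    induction n with
    | zero =>
      have := hDF s hs
      rw [hDs, map_zero, zero_add] at this
      simpa using this
    | succ n ih =>
      rw [pow_succ', Module.End.mul_apply, hDF _ (hF _), ih, map_smul, pow_succ' F n,
        Module.End.mul_apply, ← add_smul]
      congr 1
      push_cast
      ring
  induction n with
  | zero => simp
  | succ n ih =>
    rw [pow_succ D, Module.End.mul_apply, h1, map_smul, ih, smul_smul]
    congr 1
    rw [Nat.factorial_succ, pow_succ]
    push_cast
    ring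

/-- If `ker D = D ^ (p - 1)` on `N` then `ker D ^ (p - 1) = D` on `N`. -/
theorem good_second (D : M →ₗ[k] M) (N : Submodule k M) (hDN : ∀ f ∈ N, D f ∈ N) {p : ℕ}
    (hgood : ∀ f ∈ N, D f = 0 → ∃ g ∈ N, (D ^ (p - 1)) g = f) {f : M} (hf : f ∈ N)
    (h : (D ^ (p - 1)) f = 0) (hp : 0 < p) : ∃ g ∈ N, D g = f := by
  have hDN' : ∀ n : ℕ, ∀ f ∈ N, (D ^ n) f ∈ N := by
    intro n
    induction n with
    | zero => intro f hf; simpa using hf
    | succ n ih =>
      intro f hf
      rw [pow_succ', Module.End.mul_apply]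
      exact hDN _ (ih _ hf)
  have key : ∀ r : ℕ, r ≤ p - 1 → ∀ f ∈ N, (D ^ r) f = 0 → ∃ g ∈ N, D g = f := by
    intro r
    induction r with
    | zero =>
      intro _ f _ h0
      refine ⟨0, N.zero_mem, ?_⟩
      simpa using h0.symm
    | succ r ih =>
      intro hr f hf h0
      have h1 : D ((D ^ r) f) = 0 := by
        rw [← Module.End.mul_apply, ← pow_succ']
        exact h0
      obtain ⟨g, hg, hg2⟩ := hgood _ (hDN' r f hf) h1
      have h2 : (D ^ r) (f - (D ^ (p - 1 - r)) g) = 0 := by
        rw [map_sub, ← Module.End.mul_apply, ← pow_add, show r + (p - 1 - r) = p - 1 by omega, hg2,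
          sub_self]
      obtain ⟨g1, hg1, hg12⟩ := ih (by omega) _ (N.sub_mem hf (hDN' _ _ hg)) h2
      refine ⟨g1 + (D ^ (p - 1 - r - 1)) g, N.add_mem hg1 (hDN' _ _ hg), ?_⟩
      rw [map_add, hg12, ← Module.End.mul_apply, ← pow_succ', show p - 1 - r - 1 + 1 = p - 1 - r by omega]
      abel
  exact key _ le_rfl f hf h

end gen

end Pool.Agent.Helper58.KW
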