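import Mathlib
import Pool.Agent.Helper58.KW.Der

/-!
# Polynomial functions on a Jordan block in characteristic `p`

`σ` is a set of variables, `nx : σ → Option σ` the action of a nilpotent operator on it.
-/

namespace Pool.Agent.Helper58.KW

open MvPolynomial Finsupp

section wd

variable {k : Type*} [Field k] {σ : Type*}

/-- The derivation sending the variable `x` to `c x` times the variable `nx x` (or to `0`). -/
noncomputable def wd (c : σ → k) (nx : σ → Option σ) :
    Derivation k (MvPolynomial σ k) (MvPolynomial σ k) :=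
  mkDerivation k fun x => c x • (nx x).elim 0 X

theorem wd_X (c : σ → k) (nx : σ → Option σ) (x : σ) :
    wd c nx (X x) = c x • (nx x).elim 0 X := mkDerivation_X k _ x

theorem wd_support (c : σ → k) (nx : σ → Option σ) {ν μ : σ →₀ ℕ} {a : k}
    (h : μ ∈ (wd c nx (monomial ν a)).support) :
    ∃ x y, ((ν x : ℕ) : k) ≠ 0 ∧ c x ≠ 0 ∧ nx x = some y ∧
      μ = ν - Finsupp.single x 1 + Finsupp.single y 1 := by
  classical
  rw [MvPolynomial.mem_support_iff] at h
  unfold wd at h
  rw [mkDerivation_monomial, coeff_smul, Finsupp.sum, coeff_sum] at h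
  have h1 : ∑ x ∈ ν.support, coeff μ (monomial (ν - Finsupp.single x 1) ((ν x : ℕ) : k) •
      (c x • (nx x).elim (0 : MvPolynomial σ k) X)) ≠ 0 := by
    intro h0
    rw [h0] at h
    simp at h
  obtain ⟨x, hx, hx2⟩ := Finset.exists_ne_zero_of_sum_ne_zero h1
  cases hy : nx x with
  | none =>
    rw [hy] at hx2
    simp at hx2
  | some y =>
    rw [hy] at hx2
    refine ⟨x, y, ?_, ?_, hy, ?_⟩
    · intro h0
      rw [h0] at hx2
      simp at hx2
    · intro h0
      rw [h0] at hx2
      simp at hx2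
    · by_contra hne
      apply hx2
      rw [Option.elim_some, smul_eq_mul, mul_smul_comm, coeff_smul, X, monomial_mul, coeff_monomial,
        if_neg (fun h => hne h.symm), smul_zero]

theorem wd_mem (c : σ → k) (nx : σ → Option σ) {S : Set (σ →₀ ℕ)}
    (hS : ∀ ν ∈ S, ∀ x y, ((ν x : ℕ) : k) ≠ 0 → c x ≠ 0 → nx x = some y →
      ν - Finsupp.single x 1 + Finsupp.single y 1 ∈ S) {f : MvPolynomial σ k}
    (hf : f ∈ restrictSupport k S) : wd c nx f ∈ restrictSupport k S := by
  rw [f.as_sum, map_sum]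
  refine Submodule.sum_mem _ fun ν hν => ?_
  rw [mem_restrictSupport_iff]
  intro μ hμ
  obtain ⟨x, y, h1, h2, h3, rfl⟩ := wd_support c nx hμ
  exact hS ν (hf hν) x y h1 h2 h3

/-- Iterates of `nx`. -/
def itn (nx : σ → Option σ) : ℕ → σ → Option σ
  | 0, x => some x
  | n + 1, x => (itn nx n x).bind nx

theorem itn_succ (nx : σ → Option σ) (n : ℕ) (x : σ) :
    itn nx (n + 1) x = (itn nx n x).bind nx := rfl

theorem pow_wd_X (nx : σ → Option σ) (n : ℕ) (x : σ) :
    (((wd (fun _ => (1 : k)) nx : Derivation k (MvPolynomial σ k) (MvPolynomial σ k)) :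
      MvPolynomial σ k →ₗ[k] MvPolynomial σ k) ^ n) (X x) = (itn nx n x).elim 0 X := by
  induction n with
  | zero => simp [itn]
  | succ n ih =>
    rw [pow_succ', Module.End.mul_apply, ih, itn_succ]
    cases h : itn nx n x with
    | none => simp
    | some y =>
      simp only [Option.elim_some, Option.bind_some, Derivation.coeFn_coe]
      rw [wd_X, one_smul]

theorem pow_char_zero (p : ℕ) [Fact p.Prime] [CharP k p]
    (D : Derivation k (MvPolynomial σ k) (MvPolynomial σ k))
    (h : ∀ x, ((D : MvPolynomial σ k →ₗ[k] MvPolynomial σ k) ^ p) (X x) = 0) (f : MvPolynomial σ k) :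
    ((D : MvPolynomial σ k →ₗ[k] MvPolynomial σ k) ^ p) f = 0 := by
  have hD : ∀ a b : MvPolynomial σ k, (D : MvPolynomial σ k →ₗ[k] MvPolynomial σ k) (a * b) =
      (D : MvPolynomial σ k →ₗ[k] MvPolynomial σ k) a * b +
        a * (D : MvPolynomial σ k →ₗ[k] MvPolynomial σ k) b := by
    intro a b
    simp only [Derivation.coeFn_coe, Derivation.leibniz, smul_eq_mul]
    ring
  have hp : p ≠ 0 := (Fact.out : p.Prime).ne_zero
  induction f using MvPolynomial.induction_on with
  | C a =>
    obtain ⟨q, rfl⟩ := Nat.exists_eq_succ_of_ne_zero hp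
    rw [Nat.succ_eq_add_one, pow_succ, Module.End.mul_apply]
    simp
  | add a b ha hb => rw [map_add, ha, hb, add_zero]
  | mul_X a x ha => rw [leib_char p _ hD, ha, h, zero_mul, mul_zero, add_zero]

end wd

section AF

variable {k : Type*} [Field k] {Z : Type*}

/-- The action on `Z ⊕ ℕ`, a block of size `n` on the second summand. -/
def nxn (nz : Z → Option Z) (n : ℕ) : Z ⊕ ℕ → Option (Z ⊕ ℕ)
  | Sum.inl z => (nz z).map Sum.inl
  | Sum.inr j => if j + 1 < n then some (Sum.inr (j + 1)) else none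

theorem nxn_inr (nz : Z → Option Z) (n j : ℕ) :
    nxn nz n (Sum.inr j) = if j + 1 < n then some (Sum.inr (j + 1)) else none := rfl

/-- The derivation. -/
noncomputable def Dn (k : Type*) [Field k] (nz : Z → Option Z) (n : ℕ) :
    Derivation k (MvPolynomial (Z ⊕ ℕ) k) (MvPolynomial (Z ⊕ ℕ) k) :=
  wd (fun _ => (1 : k)) (nxn nz n)

/-- The derivation as a linear map. -/
noncomputable def Ln (k : Type*) [Field k] (nz : Z → Option Z) (n : ℕ) :
    MvPolynomial (Z ⊕ ℕ) k →ₗ[k] MvPolynomial (Z ⊕ ℕ) k := (Dn k nz n : _ →ₗ[k] _)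

theorem Ln_apply (nz : Z → Option Z) (n : ℕ) (f : MvPolynomial (Z ⊕ ℕ) k) :
    Ln k nz n f = Dn k nz n f := rfl

/-- Monomials of degree `b` in the block, of degree `< p` in its generator. -/
def Bs (p n b : ℕ) : Set ((Z ⊕ ℕ) →₀ ℕ) :=
  {ν | (∀ j, n ≤ j → ν (Sum.inr j) = 0) ∧ ∑ j ∈ Finset.range n, ν (Sum.inr j) = b ∧
    ν (Sum.inr 0) < p}

/-- Polynomials of degree `b` in the block, of degree `< p` in its generator. -/
noncomputable def B (k : Type*) [Field k] (Z : Type*) (p n b : ℕ) :
    Submodule k (MvPolynomial (Z ⊕ ℕ) k) := restrictSupport k (Bs p n b)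

theorem Dn_inr (nz : Z → Option Z) (n j : ℕ) :
    Dn k nz n (X (Sum.inr j)) = if j + 1 < n then X (Sum.inr (j + 1)) else 0 := by
  unfold Dn
  rw [wd_X, one_smul, nxn_inr]
  split_ifs <;> simp

theorem Dn_inl (nz : Z → Option Z) (n : ℕ) (z : Z) :
    Dn k nz n (X (Sum.inl z)) = ((nz z).map Sum.inl).elim 0 X := by
  unfold Dn
  rw [wd_X, one_smul]
  rfl

theorem Dn_B (p : ℕ) (nz : Z → Option Z) {n b : ℕ} {f : MvPolynomial (Z ⊕ ℕ) k}
    (hf : f ∈ B k Z p n b) : Dn k nz n f ∈ B k Z p n b := by
  refine wd_mem _ _ ?_ hf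
  rintro ν ⟨h1, h2, h3⟩ x y hx _ hxy
  have hx0 : ν x ≠ 0 := by
    intro h
    rw [h] at hx
    simp at hx
  rcases x with z | j
  · obtain ⟨z', -, rfl⟩ : ∃ z', nz z = some z' ∧ Sum.inl z' = y := by
      simpa [nxn, Option.map_eq_some_iff] using hxy
    refine ⟨fun j hj => ?_, ?_, ?_⟩
    · simp [h1 j hj]
    · rw [← h2]
      refine Finset.sum_congr rfl fun j _ => ?_
      simp
    · simpa using h3
  · have hj : j + 1 < n ∧ y = Sum.inr (j + 1) := by
      rw [nxn_inr] at hxy
      split_ifs at hxy with h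
      exact ⟨h, (Option.some.inj hxy).symm⟩
    obtain ⟨hj, rfl⟩ := hj
    classical
    have hval : ∀ i, (ν - Finsupp.single (Sum.inr j) 1 + Finsupp.single (Sum.inr (j + 1)) 1 :
        (Z ⊕ ℕ) →₀ ℕ) (Sum.inr i) = ν (Sum.inr i) - (if i = j then 1 else 0) +
          (if i = j + 1 then 1 else 0) := by
      intro i
      rw [Finsupp.add_apply, Finsupp.tsub_apply, Finsupp.single_apply, Finsupp.single_apply]
      simp only [Sum.inr.injEq, eq_comm]
    refine ⟨fun i hi => ?_, ?_, ?_⟩
    · rw [hval, if_neg (by omega), if_neg (by omega), h1 i hi, zero_tsub, zero_add]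
    · have hsum : ∑ i ∈ Finset.range n, ν (Sum.inr i) =
          ∑ i ∈ Finset.range n, ((ν (Sum.inr i) - (if i = j then 1 else 0)) +
            (if i = j then 1 else 0)) := by
        refine Finset.sum_congr rfl fun i _ => ?_
        by_cases hij : i = j
        · rw [if_pos hij, hij]
          omega
        · rw [if_neg hij]
          rfl
      rw [Finset.sum_congr rfl fun i _ => hval i, Finset.sum_add_distrib, ← h2, hsum,
        Finset.sum_add_distrib, Finset.sum_ite_eq', Finset.sum_ite_eq', if_pos, if_pos]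
      · rw [Finset.mem_range]
        omega
      · rw [Finset.mem_range]
        omega
    · rcases Nat.eq_zero_or_pos j with h0 | h0
      · subst h0
        rw [hval, if_pos rfl, if_neg (by omega)]
        omega
      · rw [hval, if_neg (by omega), if_neg (by omega)]
        exact h3

theorem pow_Ln_B (p : ℕ) (nz : Z → Option Z) {n b : ℕ} (m : ℕ) {f : MvPolynomial (Z ⊕ ℕ) k}
    (hf : f ∈ B k Z p n b) : ((Ln k nz n) ^ m) f ∈ B k Z p n b := by
  induction m with
  | zero => simpa using hf
  | succ m ih =>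
    rw [pow_succ', Module.End.mul_apply]
    exact Dn_B p nz ih

theorem pow_Ln_zero (p : ℕ) [hp : Fact p.Prime] [CharP k p] (nz : Z → Option Z)
    (hz : ∀ z, itn nz p z = none) {n : ℕ} (hn : n ≤ p) (f : MvPolynomial (Z ⊕ ℕ) k) :
    ((Ln k nz n) ^ p) f = 0 := by
  refine pow_char_zero p (Dn k nz n) ?_ f
  intro x
  unfold Dn
  rw [pow_wd_X]
  rcases x with z | j
  · have h : ∀ m, itn (nxn nz n) m (Sum.inl z) = (itn nz m z).map Sum.inl := by
      intro m
      induction m with
      | zero => rfl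
      | succ m ih =>
        rw [itn_succ, itn_succ, ih]
        cases itn nz m z with
        | none => rfl
        | some z' => rfl
    rw [h, hz]
    rfl
  · have h : ∀ m, 0 < m → itn (nxn nz n) m (Sum.inr j) =
        if j + m < n then some (Sum.inr (j + m)) else none := by
      intro m hm
      induction m with
      | zero => omega
      | succ m ih =>
        rw [itn_succ]
        rcases Nat.eq_zero_or_pos m with h0 | h0
        · subst h0
          rfl
        · rw [ih h0]
          split_ifs with h1 h2 h2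
          · rw [Option.bind_some, nxn_inr, if_pos (by omega)]
            rfl
          · rw [Option.bind_some, nxn_inr, if_neg (by omega)]
          · omega
          · rfl
    rw [h p hp.out.pos, if_neg (by omega)]
    rfl

/-- The homomorphism killing the variable `n` of the block. -/
noncomputable def killn (k : Type*) [Field k] (Z : Type*) (n : ℕ) :
    MvPolynomial (Z ⊕ ℕ) k →ₐ[k] MvPolynomial (Z ⊕ ℕ) k := by
  classical
  exact aeval fun x => if x = Sum.inr n then 0 else X x

theorem killn_Dn (nz : Z → Option Z) (n : ℕ) (f : MvPolynomial (Z ⊕ ℕ) k) :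
    killn k Z n (Dn k nz (n + 1) f) = Dn k nz n (killn k Z n f) := by
  classical
  induction f using MvPolynomial.induction_on with
  | C a =>
    unfold killn
    rw [derivation_C, map_zero, ← algebraMap_eq, AlgHom.commutes, algebraMap_eq, derivation_C]
  | add a b ha hb => rw [map_add, map_add, ha, hb, map_add, map_add]
  | mul_X a x ha =>
    have hx : killn k Z n (Dn k nz (n + 1) (X x)) = Dn k nz n (killn k Z n (X x)) := by
      unfold killn
      rw [aeval_X]
      rcases x with z | j
      · rw [if_neg (by simp), Dn_inl, Dn_inl]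
        cases nz z with
        | none => simp
        | some z' => simp
      · rw [Dn_inr]
        by_cases hj : j = n
        · subst hj
          simp
        · have e1 : (if (Sum.inr j : Z ⊕ ℕ) = Sum.inr n then (0 : MvPolynomial (Z ⊕ ℕ) k)
              else X (Sum.inr j)) = X (Sum.inr j) := if_neg (by simpa using hj)
          rw [e1, Dn_inr]
          by_cases h1 : j + 1 < n
          · rw [if_pos (by omega), if_pos h1, aeval_X, if_neg (by simp; omega)]
          · by_cases h2 : j + 1 < n + 1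
            · rw [if_pos h2, if_neg h1, aeval_X, if_pos (by rw [show j + 1 = n by omega])]
            · rw [if_neg h2, if_neg h1, map_zero]
    simp only [Derivation.leibniz, smul_eq_mul, map_add, map_mul]
    rw [ha, hx]

theorem pow_killn (nz : Z → Option Z) (n m : ℕ) (f : MvPolynomial (Z ⊕ ℕ) k) :
    killn k Z n (((Ln k nz (n + 1)) ^ m) f) = ((Ln k nz n) ^ m) (killn k Z n f) := by
  induction m with
  | zero => simp
  | succ m ih =>
    rw [pow_succ', pow_succ', Module.End.mul_apply, Module.End.mul_apply, Ln_apply, killn_Dn, ih,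
      Ln_apply]

theorem killn_monomial (n : ℕ) (ν : (Z ⊕ ℕ) →₀ ℕ) (a : k) :
    killn k Z n (monomial ν a) = if ν (Sum.inr n) = 0 then monomial ν a else 0 := by
  classical
  unfold killn
  rw [aeval_monomial]
  split_ifs with h
  · rw [monomial_eq, algebraMap_eq]
    congr 1
    refine Finsupp.prod_congr fun x hx => ?_
    rw [if_neg]
    rintro rfl
    rw [Finsupp.mem_support_iff] at hx
    exact hx h
  · rw [Finsupp.prod, Finset.prod_eq_zero (i := Sum.inr n), mul_zero]
    · rw [Finsupp.mem_support_iff]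
      exact h
    · simp [h]

theorem coeff_killn (n : ℕ) (f : MvPolynomial (Z ⊕ ℕ) k) (μ : (Z ⊕ ℕ) →₀ ℕ) :
    coeff μ (killn k Z n f) = if μ (Sum.inr n) = 0 then coeff μ f else 0 := by
  classical
  induction f using MvPolynomial.induction_on' with
  | monomial ν a =>
    rw [killn_monomial]
    by_cases h : ν (Sum.inr n) = 0
    · rw [if_pos h, coeff_monomial]
      by_cases h2 : ν = μ
      · subst h2
        rw [if_pos rfl, if_pos h]
      · rw [if_neg h2]
        simp
    · rw [if_neg h, coeff_zero, coeff_monomial]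
      by_cases h2 : ν = μ
      · subst h2
        rw [if_neg h]
      · rw [if_neg h2]
        simp
  | add a b ha hb =>
    rw [map_add, coeff_add, ha, hb, coeff_add]
    split_ifs <;> simp

theorem killn_B (p : ℕ) {n b : ℕ} (hn : 0 < n) {f : MvPolynomial (Z ⊕ ℕ) k}
    (hf : f ∈ B k Z p (n + 1) b) : killn k Z n f ∈ B k Z p n b := by
  rw [B, mem_restrictSupport_iff]
  intro μ hμ
  rw [Finset.mem_coe, MvPolynomial.mem_support_iff, coeff_killn] at hμ
  split_ifs at hμ with h
  · obtain ⟨h1, h2, h3⟩ := hf (MvPolynomial.mem_support_iff.2 hμ)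
    refine ⟨fun j hj => ?_, ?_, h3⟩
    · rcases Nat.lt_or_ge j (n + 1) with h4 | h4
      · rw [show j = n by omega, h]
      · exact h1 j h4
    · rw [Finset.sum_range_succ, h, add_zero] at h2
      exact h2
  · exact absurd rfl hμ

theorem B_le (p : ℕ) (n b : ℕ) : B k Z p n b ≤ B k Z p (n + 1) b := by
  refine restrictSupport_mono k ?_
  rintro ν ⟨h1, h2, h3⟩
  refine ⟨fun j hj => h1 j (by omega), ?_, h3⟩
  rw [Finset.sum_range_succ, h2, h1 n le_rfl, add_zero]

theorem killn_eq (p : ℕ) {n b : ℕ} {f : MvPolynomial (Z ⊕ ℕ) k} (hf : f ∈ B k Z p n b) :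
    killn k Z n f = f := by
  ext μ
  rw [coeff_killn]
  split_ifs with h
  · rfl
  · by_contra hne
    exact h ((hf (MvPolynomial.mem_support_iff.2 (fun h0 => hne h0.symm))).1 n le_rfl)

theorem mulX_B (p : ℕ) {n b : ℕ} (_hn : 0 < n) {f : MvPolynomial (Z ⊕ ℕ) k}
    (hf : f ∈ B k Z p (n + 1) b) : X (Sum.inr n) * f ∈ B k Z p (n + 1) (b + 1) := by
  classical
  rw [B, mem_restrictSupport_iff]
  intro μ hμ
  rw [Finset.mem_coe, MvPolynomial.mem_support_iff, mul_comm, coeff_mul_X'] at hμ
  split_ifs at hμ with h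
  · obtain ⟨h1, h2, h3⟩ := hf (MvPolynomial.mem_support_iff.2 hμ)
    rw [Finsupp.mem_support_iff] at h
    have hval : ∀ i, (μ - Finsupp.single (Sum.inr n) 1 : (Z ⊕ ℕ) →₀ ℕ) (Sum.inr i) =
        μ (Sum.inr i) - (if i = n then 1 else 0) := by
      intro i
      rw [Finsupp.tsub_apply, Finsupp.single_apply]
      simp only [Sum.inr.injEq, eq_comm]
    refine ⟨fun j hj => ?_, ?_, ?_⟩
    · have := h1 j hj
      rw [hval, if_neg (by omega)] at this
      simpa using this
    · rw [Finset.sum_range_succ] at h2 ⊢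
      rw [Finset.sum_congr rfl fun i hi => hval i, hval, if_pos rfl] at h2
      have : ∑ x ∈ Finset.range n, (μ (Sum.inr x) - (if x = n then 1 else 0)) =
          ∑ x ∈ Finset.range n, μ (Sum.inr x) := by
        refine Finset.sum_congr rfl fun x hx => ?_
        rw [Finset.mem_range] at hx
        rw [if_neg (by omega)]
        rfl
      rw [this] at h2
      omega
    · have := h3
      rw [hval, if_neg (by omega)] at this
      simpa using this
  · exact absurd rfl hμ

theorem exists_mulX (p : ℕ) {n b : ℕ} (hn : 0 < n) {f : MvPolynomial (Z ⊕ ℕ) k}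
    (hf : f ∈ B k Z p (n + 1) (b + 1)) (h0 : killn k Z n f = 0) :
    ∃ h ∈ B k Z p (n + 1) b, f = X (Sum.inr n) * h := by
  classical
  refine ⟨f.divMonomial (Finsupp.single (Sum.inr n) 1), ?_, ?_⟩
  · rw [B, mem_restrictSupport_iff]
    intro μ hμ
    rw [Finset.mem_coe, MvPolynomial.mem_support_iff, coeff_divMonomial] at hμ
    obtain ⟨h1, h2, h3⟩ := hf (MvPolynomial.mem_support_iff.2 hμ)
    have hval : ∀ i, (Finsupp.single (Sum.inr n) 1 + μ : (Z ⊕ ℕ) →₀ ℕ) (Sum.inr i) =
        (if i = n then 1 else 0) + μ (Sum.inr i) := by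
      intro i
      rw [Finsupp.add_apply, Finsupp.single_apply]
      simp only [Sum.inr.injEq, eq_comm]
    refine ⟨fun j hj => ?_, ?_, ?_⟩
    · have := h1 j hj
      rw [hval, if_neg (by omega)] at this
      simpa using this
    · rw [Finset.sum_congr rfl fun i _ => hval i, Finset.sum_add_distrib, Finset.sum_ite_eq',
        if_pos (by simp)] at h2
      omega
    · have := h3
      rw [hval, if_neg (by omega)] at this
      simpa using this
  · have h1 := divMonomial_add_modMonomial_single f (Sum.inr n : Z ⊕ ℕ)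
    have h2 : f.modMonomial (Finsupp.single (Sum.inr n) 1) = 0 := by
      ext μ
      rw [coeff_zero]
      by_cases hle : Finsupp.single (Sum.inr n) 1 ≤ μ
      · rw [coeff_modMonomial_of_le _ hle]
      · rw [coeff_modMonomial_of_not_le _ hle]
        have h3 : μ (Sum.inr n) = 0 := by
          by_contra hne
          apply hle
          rw [Finsupp.single_le_iff]
          omega
        have h4 := congrArg (coeff μ) h0
        rw [coeff_killn, if_pos h3, coeff_zero] at h4
        exact h4
    rw [h2, add_zero] at h1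
    exact h1.symm

theorem Dn_mulX (nz : Z → Option Z) (n : ℕ) (f : MvPolynomial (Z ⊕ ℕ) k) :
    Dn k nz (n + 1) (X (Sum.inr n) * f) = X (Sum.inr n) * Dn k nz (n + 1) f := by
  rw [Derivation.leibniz, Dn_inr, if_neg (by omega), smul_zero, add_zero, smul_eq_mul]

theorem pow_Ln_mulX (nz : Z → Option Z) (n m : ℕ) (f : MvPolynomial (Z ⊕ ℕ) k) :
    ((Ln k nz (n + 1)) ^ m) (X (Sum.inr n) * f) = X (Sum.inr n) * ((Ln k nz (n + 1)) ^ m) f := by
  induction m with
  | zero => simp
  | succ m ih =>
    rw [pow_succ', Module.End.mul_apply, ih, Ln_apply, Dn_mulX, Module.End.mul_apply, Ln_apply]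

/-- The Tate cohomology of the block vanishes in degree `b`. -/
def GoodB (k : Type*) [Field k] (p : ℕ) (nz : Z → Option Z) (n b : ℕ) : Prop :=
  ∀ f ∈ B k Z p n b, Dn k nz n f = 0 → ∃ g ∈ B k Z p n b, ((Ln k nz n) ^ (p - 1)) g = f

theorem good_down (p : ℕ) [hp : Fact p.Prime] [CharP k p] (nz : Z → Option Z)
    (hz : ∀ z, itn nz p z = none) {n b : ℕ} (hn : 0 < n) (hnp : n + 1 ≤ p)
    (h1 : GoodB k p nz (n + 1) b) (h2 : GoodB k p nz (n + 1) (b + 1)) :
    GoodB k p nz n (b + 1) := by
  intro c hc hDc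
  have hc' := B_le p n (b + 1) hc
  have h3 : killn k Z n (Dn k nz (n + 1) c) = 0 := by
    rw [killn_Dn, killn_eq p hc, hDc]
  obtain ⟨h, hh, hh2⟩ := exists_mulX p hn (Dn_B p nz hc') h3
  have h4 : ((Ln k nz (n + 1)) ^ (p - 1)) h = 0 := by
    have h5 := pow_Ln_zero p nz hz hnp c
    rw [show p = (p - 1) + 1 by have := hp.out.pos; omega, pow_succ, Module.End.mul_apply, Ln_apply,
      hh2, pow_Ln_mulX] at h5
    exact (mul_eq_zero.1 h5).resolve_left (MvPolynomial.X_ne_zero _)
  obtain ⟨g, hg, hg2⟩ := good_second (Ln k nz (n + 1)) (B k Z p (n + 1) b)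
    (fun f hf => Dn_B p nz hf) h1 hh h4 hp.out.pos
  have h6 : Dn k nz (n + 1) (c - X (Sum.inr n) * g) = 0 := by
    rw [map_sub, Dn_mulX, hh2, ← Ln_apply, hg2, sub_self]
  obtain ⟨w, hw, hw2⟩ := h2 _ (Submodule.sub_mem _ hc' (mulX_B p hn hg)) h6
  refine ⟨killn k Z n w, killn_B p hn hw, ?_⟩
  rw [← pow_killn, hw2, map_sub, map_mul, killn_eq p hc]
  unfold killn
  simp

theorem good_up (p : ℕ) [hp : Fact p.Prime] [CharP k p] (nz : Z → Option Z)
    (hz : ∀ z, itn nz p z = none) {n b : ℕ} (hn : 0 < n) (hnp : n + 1 ≤ p)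
    (h1 : GoodB k p nz (n + 1) b) (h2 : GoodB k p nz n (b + 1)) :
    GoodB k p nz (n + 1) (b + 1) := by
  intro f hf hDf
  have h3 : Dn k nz n (killn k Z n f) = 0 := by rw [← killn_Dn, hDf, map_zero]
  obtain ⟨g0, hg0, hg02⟩ := h2 _ (killn_B p hn hf) h3
  have hg0' := B_le p n (b + 1) hg0
  have h4 : killn k Z n (f - ((Ln k nz (n + 1)) ^ (p - 1)) g0) = 0 := by
    rw [map_sub, pow_killn, killn_eq p hg0, hg02, sub_self]
  obtain ⟨h, hh, hh2⟩ := exists_mulX p hn (Submodule.sub_mem _ hf (pow_Ln_B p nz (p - 1) hg0')) h4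
  have h5 : Dn k nz (n + 1) h = 0 := by
    have h6 := Dn_mulX nz n h
    rw [← hh2, map_sub, hDf, zero_sub, ← Ln_apply, ← Module.End.mul_apply, ← pow_succ',
      show p - 1 + 1 = p by have := hp.out.pos; omega, pow_Ln_zero p nz hz hnp, neg_zero] at h6
    exact (mul_eq_zero.1 h6.symm).resolve_left (MvPolynomial.X_ne_zero _)
  obtain ⟨g1, hg1, hg12⟩ := h1 h hh h5
  refine ⟨g0 + X (Sum.inr n) * g1, Submodule.add_mem _ hg0' (mulX_B p hn hg1), ?_⟩
  rw [map_add, pow_Ln_mulX, hg12, ← hh2]
  abel

end AF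

end Pool.Agent.Helper58.KW
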