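import Mathlib
import Pool.Agent.Helper58.KW.AF

/-!
# Vanishing of Tate cohomology in degrees `> p - n` of a Jordan block of size `n`
-/

namespace Pool.Agent.Helper58.KW

open MvPolynomial Finsupp

variable {k : Type*} [Field k] {Z : Type*}

/-- The lowering map of the block of size `p`. -/
def nf : Z ⊕ ℕ → Option (Z ⊕ ℕ)
  | Sum.inl _ => none
  | Sum.inr 0 => none
  | Sum.inr (j + 1) => some (Sum.inr j)

/-- The coefficients of the lowering operator. -/
def cf (k : Type*) [Field k] : Z ⊕ ℕ → k
  | Sum.inl _ => 0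
  | Sum.inr j => -(j : k)

/-- The Euler coefficients. -/
def ce (k : Type*) [Field k] (p : ℕ) : Z ⊕ ℕ → k
  | Sum.inl _ => 0
  | Sum.inr j => if j < p then 1 else 0

theorem comm_wd (p : ℕ) [hp : Fact p.Prime] [CharP k p] (nz : Z → Option Z) :
    ⁅Dn k nz p, wd (cf k) nf⁆ = wd (ce k p) (some : Z ⊕ ℕ → Option (Z ⊕ ℕ)) := by
  apply derivation_ext
  intro x
  rw [Derivation.commutator_apply, wd_X, wd_X]
  rcases x with z | j
  · rw [Dn_inl]
    cases nz z with
    | none => simp [cf, ce, nf]
    | some z' => simp [cf, ce, nf, wd_X]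
  · rw [Dn_inr]
    rcases j with _ | j
    · have h1 : 0 + 1 < p := hp.out.one_lt
      rw [if_pos h1, wd_X]
      simp [cf, ce, nf, hp.out.pos]
    · simp only [cf, ce, nf, Option.elim_some, map_smul, Derivation.map_smul, Dn_inr]
      by_cases h1 : j + 1 < p
      · rw [if_pos h1]
        by_cases h2 : j + 1 + 1 < p
        · rw [if_pos h2, wd_X]
          simp only [cf, nf, Option.elim_some, ← sub_smul, h1, if_true]
          congr 1
          push_cast
          ring
        · rw [if_neg h2, map_zero, sub_zero]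
          have h3 : p = j + 1 + 1 := by omega
          have h4 : ((j + 1 + 1 : ℕ) : k) = 0 := by
            rw [← h3]
            exact CharP.cast_eq_zero k p
          have h5 : -((j + 1 : ℕ) : k) = 1 := by
            push_cast at h4 ⊢
            linear_combination -h4
          rw [h5, if_pos h1]
      · rw [if_neg h1, if_neg (by omega), map_zero, smul_zero, zero_sub, neg_zero, if_neg h1,
          zero_smul]

theorem euler_B (p : ℕ) {b : ℕ} {f : MvPolynomial (Z ⊕ ℕ) k} (hf : f ∈ B k Z p p b) :
    wd (ce k p) (some : Z ⊕ ℕ → Option (Z ⊕ ℕ)) f = (b : k) • f := by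
  classical
  rw [f.as_sum, map_sum, Finset.smul_sum]
  refine Finset.sum_congr rfl fun ν hν => ?_
  obtain ⟨h1, h2, h3⟩ := hf hν
  unfold wd
  rw [mkDerivation_monomial, Finsupp.sum]
  have h4 : ∀ x ∈ ν.support, monomial (ν - Finsupp.single x 1) ((ν x : ℕ) : k) •
      (ce k p x • (some x : Option (Z ⊕ ℕ)).elim (0 : MvPolynomial (Z ⊕ ℕ) k) X) =
      monomial ν (((ν x : ℕ) : k) * ce k p x) := by
    intro x hx
    rw [Option.elim_some, smul_eq_mul, mul_smul_comm, X, monomial_mul, smul_monomial, mul_one,
      smul_eq_mul, mul_comm (ce k p x)]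
    congr 2
    ext y
    rw [Finsupp.add_apply, Finsupp.tsub_apply, Finsupp.single_apply]
    rw [Finsupp.mem_support_iff] at hx
    split_ifs with h
    · subst h
      omega
    · omega
  rw [Finset.sum_congr rfl h4, ← map_sum, smul_monomial, smul_monomial]
  congr 1
  rw [smul_eq_mul, smul_eq_mul, mul_comm]
  congr 1
  rw [← h2, Nat.cast_sum]
  have h5 : ∑ x ∈ ν.support, ((ν x : ℕ) : k) * ce k p x =
      ∑ x ∈ (Finset.range p).map ⟨Sum.inr, Sum.inr_injective⟩, ((ν x : ℕ) : k) := by
    rw [← Finset.sum_filter_add_sum_filter_not ν.support (fun x => ce k p x ≠ 0)]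
    have h6 : ∑ x ∈ ν.support with ¬ce k p x ≠ 0, ((ν x : ℕ) : k) * ce k p x = 0 := by
      refine Finset.sum_eq_zero fun x hx => ?_
      rw [Finset.mem_filter, not_not] at hx
      rw [hx.2, mul_zero]
    rw [h6, add_zero]
    have h7 : ∀ x ∈ ν.support.filter (fun x => ce k p x ≠ 0),
        ((ν x : ℕ) : k) * ce k p x = ((ν x : ℕ) : k) := by
      intro x hx
      rw [Finset.mem_filter] at hx
      rcases x with z | j
      · exact absurd rfl hx.2
      · have h8 := hx.2
        simp only [ce] at h8 ⊢
        split_ifs at h8 ⊢ with h9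
        · rw [mul_one]
        · exact absurd rfl h8
    rw [Finset.sum_congr rfl h7]
    refine Finset.sum_subset ?_ ?_
    · intro x hx
      rw [Finset.mem_filter] at hx
      rcases x with z | j
      · exact absurd rfl hx.2
      · have h8 := hx.2
        simp only [ce] at h8
        split_ifs at h8 with h9
        · rw [Finset.mem_map]
          exact ⟨j, Finset.mem_range.2 h9, rfl⟩
        · exact absurd rfl h8
    · intro x hx hx2
      rw [Finset.mem_map] at hx
      obtain ⟨j, hj, rfl⟩ := hx
      rw [Finset.mem_range] at hj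
      rw [Finset.mem_filter, not_and, not_not] at hx2
      by_cases h9 : Sum.inr j ∈ ν.support
      · have h10 := hx2 h9
        simp [ce, hj] at h10
      · rw [Finsupp.notMem_support_iff] at h9
        simp [h9]
  rw [h5, Finset.sum_map]
  rfl

theorem wf_B (p : ℕ) {b : ℕ} (hb : b < p) {f : MvPolynomial (Z ⊕ ℕ) k} (hf : f ∈ B k Z p p b) :
    wd (cf k) nf f ∈ B k Z p p b := by
  classical
  refine wd_mem _ _ ?_ hf
  rintro ν ⟨h1, h2, h3⟩ x y hx _ hxy
  have hx0 : ν x ≠ 0 := by
    intro h
    rw [h] at hx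
    simp at hx
  rcases x with z | j
  · exact absurd hxy (by simp [nf])
  · rcases j with _ | j
    · exact absurd hxy (by simp [nf])
    · obtain rfl : Sum.inr j = y := by simpa [nf] using hxy
      have hval : ∀ i, (ν - Finsupp.single (Sum.inr (j + 1)) 1 + Finsupp.single (Sum.inr j) 1 :
          (Z ⊕ ℕ) →₀ ℕ) (Sum.inr i) = ν (Sum.inr i) - (if i = j + 1 then 1 else 0) +
            (if i = j then 1 else 0) := by
        intro i
        rw [Finsupp.add_apply, Finsupp.tsub_apply, Finsupp.single_apply, Finsupp.single_apply]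
        simp only [Sum.inr.injEq, eq_comm]
      have hjp : j + 1 < p := by
        by_contra h
        exact hx0 (h1 _ (by omega))
      have hs : ∑ i ∈ Finset.range p, (ν - Finsupp.single (Sum.inr (j + 1)) 1 +
          Finsupp.single (Sum.inr j) 1 : (Z ⊕ ℕ) →₀ ℕ) (Sum.inr i) = b := by
        have hsum : ∑ i ∈ Finset.range p, ν (Sum.inr i) =
            ∑ i ∈ Finset.range p, ((ν (Sum.inr i) - (if i = j + 1 then 1 else 0)) +
              (if i = j + 1 then 1 else 0)) := by
          refine Finset.sum_congr rfl fun i _ => ?_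
          by_cases hij : i = j + 1
          · rw [if_pos hij, hij]
            omega
          · rw [if_neg hij]
            rfl
        rw [Finset.sum_congr rfl fun i _ => hval i, Finset.sum_add_distrib, ← h2, hsum,
          Finset.sum_add_distrib, Finset.sum_ite_eq', Finset.sum_ite_eq', if_pos, if_pos]
        · rw [Finset.mem_range]
          omega
        · rw [Finset.mem_range]
          omega
      refine ⟨fun i hi => ?_, hs, ?_⟩
      · rw [hval, if_neg (by omega), if_neg (by omega), h1 i hi, zero_tsub, zero_add]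
      · refine lt_of_le_of_lt ?_ hb
        rw [← hs]
        exact Finset.single_le_sum (f := fun i => (ν - Finsupp.single (Sum.inr (j + 1)) 1 +
          Finsupp.single (Sum.inr j) 1 : (Z ⊕ ℕ) →₀ ℕ) (Sum.inr i)) (fun _ _ => Nat.zero_le _)
          (Finset.mem_range.2 (by omega : 0 < p))

theorem good_base (p : ℕ) [hp : Fact p.Prime] [CharP k p] (nz : Z → Option Z) {b : ℕ}
    (hb0 : 0 < b) (hb : b < p) : GoodB k p nz p b := by
  intro f hf hDf
  have hbk : (b : k) ≠ 0 := by
    rw [Ne, CharP.cast_eq_zero_iff k p]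
    exact Nat.not_dvd_of_pos_of_lt hb0 hb
  have hfk : (((p - 1).factorial : ℕ) : k) ≠ 0 := by
    rw [Ne, CharP.cast_eq_zero_iff k p, hp.out.dvd_factorial]
    have := hp.out.pos
    omega
  let F : MvPolynomial (Z ⊕ ℕ) k →ₗ[k] MvPolynomial (Z ⊕ ℕ) k :=
    ((wd (cf k) nf : Derivation k (MvPolynomial (Z ⊕ ℕ) k) (MvPolynomial (Z ⊕ ℕ) k)) : _ →ₗ[k] _)
  have hF : ∀ f ∈ B k Z p p b, F f ∈ B k Z p p b := fun f hf => wf_B p hb hf
  have hDF : ∀ f ∈ B k Z p p b, Ln k nz p (F f) = F (Ln k nz p f) + (b : k) • f := by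
    intro f hf
    have h1 := congrArg (fun D : Derivation k (MvPolynomial (Z ⊕ ℕ) k) (MvPolynomial (Z ⊕ ℕ) k) =>
      D f) (comm_wd (k := k) p nz)
    simp only [Derivation.commutator_apply, euler_B p hf] at h1
    show Dn k nz p (wd (cf k) nf f) = wd (cf k) nf (Dn k nz p f) + (b : k) • f
    rw [← h1]
    abel
  have h2 := pow_pow_apply (Ln k nz p) F (B k Z p p b) (b : k) hF hDF hf hDf (p - 1)
  have hFm : ∀ m : ℕ, (F ^ m) f ∈ B k Z p p b := by
    intro m
    induction m with
    | zero => simpa using hf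
    | succ m ih =>
      rw [pow_succ', Module.End.mul_apply]
      exact hF _ ih
  refine ⟨(((p - 1).factorial : k) * (b : k) ^ (p - 1))⁻¹ • (F ^ (p - 1)) f,
    Submodule.smul_mem _ _ (hFm _), ?_⟩
  rw [map_smul, h2, smul_smul, inv_mul_cancel₀ (mul_ne_zero hfk (pow_ne_zero _ hbk)), one_smul]

theorem good_low (p : ℕ) [hp : Fact p.Prime] [CharP k p] (nz : Z → Option Z)
    (hz : ∀ z, itn nz p z = none) (i : ℕ) (hi : i < p) :
    ∀ b, i < b → b < p → GoodB k p nz (p - i) b := by
  induction i with
  | zero =>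
    intro b hb0 hb
    exact good_base p nz hb0 hb
  | succ i ih =>
    intro b hb0 hb
    obtain ⟨b, rfl⟩ : ∃ b', b = b' + 1 := ⟨b - 1, by omega⟩
    have h1 := ih (by omega) b (by omega) (by omega)
    have h2 := ih (by omega) (b + 1) (by omega) hb
    rw [show p - i = (p - (i + 1)) + 1 by omega] at h1 h2
    exact good_down p nz hz (by omega) (by omega) h1 h2

theorem good_all (p : ℕ) [hp : Fact p.Prime] [CharP k p] (nz : Z → Option Z)
    (hz : ∀ z, itn nz p z = none) (n : ℕ) :
    n + 1 ≤ p → ∀ b, p < n + 1 + b → GoodB k p nz (n + 1) b := by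
  induction n with
  | zero =>
    intro _ b hb f hf _
    have h0 : f = 0 := by
      by_contra hne
      obtain ⟨ν, hν⟩ := MvPolynomial.support_nonempty.2 hne
      obtain ⟨-, h2, h3⟩ := hf hν
      simp at h2
      omega
    subst h0
    exact ⟨0, Submodule.zero_mem _, by simp⟩
  | succ n ih =>
    intro hn
    have hlow : ∀ b, p < n + 1 + 1 + b → b < p → GoodB k p nz (n + 1 + 1) b := by
      intro b hb hb2
      have h := good_low (k := k) p nz hz (p - (n + 1 + 1)) (by omega) b (by omega) hb2
      rwa [show p - (p - (n + 1 + 1)) = n + 1 + 1 by omega] at h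
    intro b hb
    rcases Nat.lt_or_ge b p with hbp | hbp
    · exact hlow b hb hbp
    · obtain ⟨c, rfl⟩ : ∃ c, b = p + c := ⟨b - p, by omega⟩
      clear hb hbp
      have hp1 := hp.out.one_lt
      induction c with
      | zero =>
        have h1 := hlow (p - 1) (by omega) (by omega)
        have h2 := ih (by omega) (p - 1 + 1) (by omega)
        have h3 := good_up p nz hz (by omega) hn h1 h2
        rwa [show p - 1 + 1 = p + 0 by omega] at h3
      | succ c ihc =>
        exact good_up p nz hz (by omega) hn ihc (ih (by omega) (p + c + 1) (by omega))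

end Pool.Agent.Helper58.KW
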