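import Mathlib

/-!
# PBW data

`V` is the generating space (a Lie algebra), `A` an associative algebra (its enveloping algebra),
`G ι d` the elements of degree `< d`, and `symb` lifts a homogeneous polynomial of degree `d` to
an element of degree `≤ d` of `A`.
-/

namespace Pool.Agent.Helper58.KW

open MvPolynomial Module

section G

variable {k : Type*} [Field k] {V : Type*} [AddCommGroup V] [Module k V] {A : Type*} [Ring A]
  [Algebra k A]

/-- Elements of degree `< d`: the span of the products of fewer than `d` elements of `ι V`. -/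
def G (ι : V →ₗ[k] A) (d : ℕ) : Submodule k A :=
  Submodule.span k {a | ∃ l : List V, l.length < d ∧ (l.map ι).prod = a}

theorem prod_mem_G (ι : V →ₗ[k] A) {d : ℕ} {l : List V} (h : l.length < d) :
    (l.map ι).prod ∈ G ι d := Submodule.subset_span ⟨l, h, rfl⟩

theorem G_mono (ι : V →ₗ[k] A) {d e : ℕ} (h : d ≤ e) : G ι d ≤ G ι e := by
  refine Submodule.span_mono ?_
  rintro a ⟨l, hl, rfl⟩
  exact ⟨l, by omega, rfl⟩

theorem G_zero (ι : V →ₗ[k] A) : G ι 0 = ⊥ := by
  rw [eq_bot_iff]
  refine Submodule.span_le.2 ?_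
  rintro a ⟨l, hl, rfl⟩
  omega

theorem one_mem_G (ι : V →ₗ[k] A) {d : ℕ} (h : 0 < d) : (1 : A) ∈ G ι d := by
  have := prod_mem_G ι (l := []) (d := d) (by simpa using h)
  simpa using this

theorem iota_mem_G (ι : V →ₗ[k] A) (v : V) {d : ℕ} (h : 1 < d) : ι v ∈ G ι d := by
  have := prod_mem_G ι (l := [v]) (d := d) (by simpa using h)
  simpa using this

theorem G_mul (ι : V →ₗ[k] A) {d e : ℕ} {a b : A} (ha : a ∈ G ι (d + 1)) (hb : b ∈ G ι e) :
    a * b ∈ G ι (d + e) := by
  have h1 : ∀ l : List V, l.length < d + 1 → ∀ b ∈ G ι e, (l.map ι).prod * b ∈ G ι (d + e) := by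
    intro l hl b hb
    induction hb using Submodule.span_induction with
    | mem b hb =>
      obtain ⟨l', hl', rfl⟩ := hb
      rw [← List.prod_append, ← List.map_append]
      refine prod_mem_G ι ?_
      rw [List.length_append]
      omega
    | zero => simp
    | add x y _ _ hx hy =>
      rw [mul_add]
      exact Submodule.add_mem _ hx hy
    | smul c x _ hx =>
      rw [mul_smul_comm]
      exact Submodule.smul_mem _ _ hx
  induction ha using Submodule.span_induction with
  | mem a ha =>
    obtain ⟨l, hl, rfl⟩ := ha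
    exact h1 l hl b hb
  | zero => simp
  | add x y _ _ hx hy =>
    rw [add_mul]
    exact Submodule.add_mem _ hx hy
  | smul c x _ hx =>
    rw [smul_mul_assoc]
    exact Submodule.smul_mem _ _ hx

theorem G_mul' (ι : V →ₗ[k] A) {d e : ℕ} {a b : A} (ha : a ∈ G ι d) (hb : b ∈ G ι (e + 1)) :
    a * b ∈ G ι (d + e) := by
  cases d with
  | zero =>
    rw [G_zero, Submodule.mem_bot] at ha
    rw [ha, zero_mul]
    exact Submodule.zero_mem _
  | succ d =>
    have := G_mul ι ha hb
    rwa [show d + (e + 1) = d + 1 + e by omega] at this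

/-- A derivation of `A` that preserves `ι V` preserves the degrees. -/
theorem der_G (ι : V →ₗ[k] A) (D : A →ₗ[k] A) (hD : ∀ a b, D (a * b) = D a * b + a * D b)
    (D₀ : V → V) (hι : ∀ v, D (ι v) = ι (D₀ v)) {d : ℕ} {a : A} (ha : a ∈ G ι d) :
    D a ∈ G ι d := by
  have h0 : D 1 = 0 := by
    have h := hD 1 1
    simp only [mul_one, one_mul] at h
    have h2 : D 1 + D 1 - D 1 = D 1 - D 1 := by rw [← h]
    simpa using h2
  have h1 : ∀ l : List V, D (l.map ι).prod ∈ G ι (l.length + 1) := by
    intro l
    induction l with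
    | nil =>
      simp only [List.map_nil, List.prod_nil, h0]
      exact Submodule.zero_mem _
    | cons v l ih =>
      rw [List.map_cons, List.prod_cons, hD, hι, List.length_cons]
      refine Submodule.add_mem _ ?_ ?_
      · have := prod_mem_G ι (l := D₀ v :: l) (d := l.length + 1 + 1) (by simp)
        simpa using this
      · have := G_mul ι (iota_mem_G ι v (d := 1 + 1) (by omega)) ih
        rwa [show 1 + (l.length + 1) = l.length + 1 + 1 by omega] at this
  induction ha using Submodule.span_induction with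
  | mem a ha =>
    obtain ⟨l, hl, rfl⟩ := ha
    exact G_mono ι (by omega) (h1 l)
  | zero => simp
  | add x y _ _ hx hy =>
    rw [map_add]
    exact Submodule.add_mem _ hx hy
  | smul c x _ hx =>
    rw [map_smul]
    exact Submodule.smul_mem _ _ hx

/-- Words in the elements of a basis are enough. -/
theorem G_eq_basis {X : Type*} (ι : V →ₗ[k] A) (e : Basis X k V) (d : ℕ) :
    G ι d = Submodule.span k {a | ∃ l : List X, l.length < d ∧ (l.map fun x => ι (e x)).prod = a} := by
  apply le_antisymm
  · have h1 : ∀ l : List V, (l.map ι).prod ∈ Submodule.span k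
        {a | ∃ l' : List X, l'.length = l.length ∧ (l'.map fun x => ι (e x)).prod = a} := by
      intro l
      induction l with
      | nil => exact Submodule.subset_span ⟨[], rfl, by simp⟩
      | cons v l ih =>
        rw [List.map_cons, List.prod_cons]
        have h2 : ι v ∈ Submodule.span k (Set.range fun x => ι (e x)) := by
          have h3 : v ∈ Submodule.span k (Set.range e) := e.mem_span v
          have h4 := Submodule.mem_map_of_mem (f := ι) h3
          rw [Submodule.map_span, ← Set.range_comp] at h4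
          exact h4
        have h5 := Submodule.mul_mem_mul h2 ih
        rw [Submodule.span_mul_span] at h5
        refine Submodule.span_mono ?_ h5
        rintro _ ⟨_, ⟨x, rfl⟩, _, ⟨l', hl', rfl⟩, rfl⟩
        exact ⟨x :: l', by simp [hl'], by simp⟩
    refine Submodule.span_le.2 ?_
    rintro a ⟨l, hl, rfl⟩
    refine Submodule.span_mono ?_ (h1 l)
    rintro a ⟨l', hl', rfl⟩
    exact ⟨l', by omega, rfl⟩
  · refine Submodule.span_mono ?_
    rintro a ⟨l, hl, rfl⟩
    refine ⟨l.map e, by simpa using hl, ?_⟩
    rw [List.map_map]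
    rfl

end G

section PBW

variable {k : Type*} [Field k] {V : Type*} [AddCommGroup V] [Module k V] {A : Type*} [Ring A]
  [Algebra k A] {X : Type*}

/-- `A` has a Poincaré–Birkhoff–Witt theorem with respect to `ι : V → A`. -/
structure PBW (ι : V →ₗ[k] A) (e : Basis X k V) (symb : MvPolynomial X k →ₗ[k] A) : Prop where
  symb_X : ∀ x, symb (MvPolynomial.X x) = ι (e x)
  symb_one : symb 1 = 1
  symb_hom : ∀ {d : ℕ} {q : MvPolynomial X k}, q.IsHomogeneous d → symb q ∈ G ι (d + 1)
  symb_mul : ∀ {d d' : ℕ} {q r : MvPolynomial X k}, q.IsHomogeneous d → r.IsHomogeneous d' →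
    symb q * symb r - symb (q * r) ∈ G ι (d + d')
  symb_lead : ∀ {d : ℕ} {q : MvPolynomial X k}, q.IsHomogeneous d → symb q ∈ G ι d → q = 0
  symb_surj : ∀ {d : ℕ} {a : A}, a ∈ G ι (d + 1) →
    ∃ q : MvPolynomial X k, q.IsHomogeneous d ∧ a - symb q ∈ G ι d
  exhaust : ∀ a : A, ∃ d, a ∈ G ι d

end PBW

end Pool.Agent.Helper58.KW
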