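import Mathlib
import Pool.Agent.Helper58.KW.Defs
import Pool.Agent.Helper58.KW.AF2

/-!
# Lifting invariants from the symmetric algebra to the enveloping algebra
-/

namespace Pool.Agent.Helper58.KW

open MvPolynomial Module Finset

variable {k : Type*} [Field k] {V : Type*} [AddCommGroup V] [Module k V] {A : Type*} [Ring A]
  [Algebra k A] {X : Type*}

/-- The derivation of the symmetric algebra. -/
noncomputable def DX (k : Type*) [Field k] {X : Type*} (nx : X → Option X) :
    Derivation k (MvPolynomial X k) (MvPolynomial X k) := wd (fun _ => (1 : k)) nx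

theorem wt_one (ν : X →₀ ℕ) : Finsupp.weight (1 : X → ℕ) ν = Finsupp.degree ν := by
  rw [Finsupp.degree_eq_weight_one]
  rfl

theorem DX_X (nx : X → Option X) (x : X) :
    DX k nx (MvPolynomial.X x) = (nx x).elim 0 MvPolynomial.X := by
  unfold DX
  rw [wd_X, one_smul]

theorem DX_hom (nx : X → Option X) {m : ℕ} {q : MvPolynomial X k} (hq : q.IsHomogeneous m) :
    (DX k nx q).IsHomogeneous m := by
  classical
  have h1 : q ∈ restrictSupport k {ν : X →₀ ℕ | Finsupp.degree ν = m} := by
    rw [mem_restrictSupport_iff]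
    intro ν hν
    have := hq (MvPolynomial.mem_support_iff.1 hν)
    rw [wt_one] at this
    exact this
  have h2 : DX k nx q ∈ restrictSupport k {ν : X →₀ ℕ | Finsupp.degree ν = m} := by
    refine wd_mem _ _ ?_ h1
    intro ν hν x y hx _ _
    have hx0 : ν x ≠ 0 := by
      intro h
      rw [h] at hx
      simp at hx
    have h3 : ν = (ν - Finsupp.single x 1) + Finsupp.single x 1 := by
      ext z
      rw [Finsupp.add_apply, Finsupp.tsub_apply, Finsupp.single_apply]
      split_ifs with h
      · subst h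
        omega
      · omega
    have h4 : Finsupp.degree ν = m := hν
    rw [h3, map_add, Finsupp.degree_single] at h4
    show Finsupp.degree _ = m
    rw [map_add, Finsupp.degree_single]
    exact h4
  intro ν hν
  have := h2 (MvPolynomial.mem_support_iff.2 hν)
  rw [wt_one]
  exact this

theorem pow_DX_hom (nx : X → Option X) {m : ℕ} {q : MvPolynomial X k} (hq : q.IsHomogeneous m)
    (n : ℕ) : (((DX k nx : Derivation k (MvPolynomial X k) (MvPolynomial X k)) :
      MvPolynomial X k →ₗ[k] MvPolynomial X k) ^ n) q |>.IsHomogeneous m := by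
  induction n with
  | zero => simpa using hq
  | succ n ih =>
    rw [pow_succ', Module.End.mul_apply]
    exact DX_hom nx ih

section PBW

variable {ι : V →ₗ[k] A} {e : Basis X k V} {symb : MvPolynomial X k →ₗ[k] A}

/-- The derivation of `A` is compatible with that of the symmetric algebra. -/
theorem PBW.compat (h : PBW ι e symb) (D : A →ₗ[k] A)
    (hD : ∀ a b, D (a * b) = D a * b + a * D b) (D₀ : V →ₗ[k] V) (hι : ∀ v, D (ι v) = ι (D₀ v))
    (nx : X → Option X) (hnx : ∀ x, D₀ (e x) = (nx x).elim 0 e) {m : ℕ} {q : MvPolynomial X k}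
    (hq : q.IsHomogeneous m) : D (symb q) - symb (DX k nx q) ∈ G ι m := by
  classical
  have hX : ∀ x, D (ι (e x)) = symb (DX k nx (MvPolynomial.X x)) := by
    intro x
    rw [hι, hnx, DX_X]
    cases nx x with
    | none => simp
    | some y => simp [h.symb_X]
  have key : ∀ m : ℕ, ∀ ν : X →₀ ℕ, Finsupp.degree ν = m →
      D (symb (monomial ν 1)) - symb (DX k nx (monomial ν 1)) ∈ G ι m := by
    intro m
    induction m with
    | zero =>
      intro ν hν
      have h0 : ν = 0 := (Finsupp.degree_eq_zero_iff ν).1 hν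
      subst h0
      have h1 : (monomial (0 : X →₀ ℕ) (1 : k)) = 1 := rfl
      rw [h1, h.symb_one, leib_one D hD, Derivation.map_one_eq_zero, map_zero, sub_zero]
      exact Submodule.zero_mem _
    | succ m ih =>
      intro ν hν
      have hne : ν ≠ 0 := by
        rintro rfl
        simp at hν
      obtain ⟨x, hx⟩ := Finsupp.support_nonempty_iff.2 hne
      rw [Finsupp.mem_support_iff] at hx
      obtain ⟨μ, rfl⟩ : ∃ μ : X →₀ ℕ, ν = Finsupp.single x 1 + μ := by
        refine ⟨ν - Finsupp.single x 1, ?_⟩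
        ext z
        rw [Finsupp.add_apply, Finsupp.tsub_apply, Finsupp.single_apply]
        split_ifs with h
        · subst h
          omega
        · omega
      have hμ : Finsupp.degree μ = m := by
        rw [map_add, Finsupp.degree_single] at hν
        omega
      have hmon : (monomial (Finsupp.single x 1 + μ) (1 : k)) = MvPolynomial.X x * monomial μ 1 := by
        rw [MvPolynomial.X, monomial_mul, one_mul]
      have hq' : (monomial μ (1 : k)).IsHomogeneous m := isHomogeneous_monomial _ hμ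
      have hXh : (MvPolynomial.X x : MvPolynomial X k).IsHomogeneous 1 := isHomogeneous_X _ _
      have e1 := h.symb_mul hXh hq'
      have e2 := h.symb_mul (DX_hom nx hXh) hq'
      have e3 := h.symb_mul hXh (DX_hom nx hq')
      have e4 := G_mul ι (iota_mem_G ι (e x) (d := 1 + 1) (by omega)) (ih μ hμ)
      have e5 := der_G ι D hD D₀ hι e1
      rw [h.symb_X] at e1 e3 e5
      rw [← hX] at e2
      rw [map_sub, hD] at e5
      rw [hmon, Derivation.leibniz, map_add, smul_eq_mul, smul_eq_mul,
        mul_comm (monomial μ (1 : k)), add_comm m 1]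
      rw [mul_sub] at e4
      have e6 := Submodule.sub_mem _ (Submodule.add_mem _ (Submodule.add_mem _ e2 e3) e4) e5
      convert e6 using 1
      abel
  rw [q.as_sum, map_sum, map_sum, map_sum, map_sum, ← Finset.sum_sub_distrib]
  refine Submodule.sum_mem _ fun ν hν => ?_
  have h1 : Finsupp.degree ν = m := by
    have := hq (MvPolynomial.mem_support_iff.1 hν)
    rw [wt_one] at this
    exact this
  have h2 : (monomial ν (coeff ν q)) = (coeff ν q) • monomial ν (1 : k) := by
    rw [smul_monomial, smul_eq_mul, mul_one]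
  rw [h2, map_smul, map_smul, Derivation.map_smul, map_smul, ← smul_sub]
  exact Submodule.smul_mem _ _ (key m ν h1)

theorem PBW.pow_compat (h : PBW ι e symb) (D : A →ₗ[k] A)
    (hD : ∀ a b, D (a * b) = D a * b + a * D b) (D₀ : V →ₗ[k] V) (hι : ∀ v, D (ι v) = ι (D₀ v))
    (nx : X → Option X) (hnx : ∀ x, D₀ (e x) = (nx x).elim 0 e) {m : ℕ} {q : MvPolynomial X k}
    (hq : q.IsHomogeneous m) (n : ℕ) :
    (D ^ n) (symb q) - symb ((((DX k nx : Derivation k (MvPolynomial X k) (MvPolynomial X k)) :
      MvPolynomial X k →ₗ[k] MvPolynomial X k) ^ n) q) ∈ G ι m := by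
  induction n with
  | zero => simp
  | succ n ih =>
    rw [pow_succ', pow_succ', Module.End.mul_apply, Module.End.mul_apply]
    have h1 := der_G ι D hD D₀ hι ih
    have h2 := h.compat D hD D₀ hι nx hnx (pow_DX_hom nx hq n)
    rw [map_sub] at h1
    have h3 := Submodule.add_mem _ h1 h2
    convert h3 using 1
    simp only [Derivation.coeFn_coe]
    abel

/-- `D ^ p = 0` on `A` if it is so on `V`. -/
theorem PBW.pow_char (h : PBW ι e symb) (p : ℕ) [Fact p.Prime] [CharP k p] (D : A →ₗ[k] A)
    (hD : ∀ a b, D (a * b) = D a * b + a * D b) (D₀ : V →ₗ[k] V) (hι : ∀ v, D (ι v) = ι (D₀ v))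
    (hp : D₀ ^ p = 0) (a : A) : (D ^ p) a = 0 := by
  have h1 : ∀ n : ℕ, ∀ v, (D ^ n) (ι v) = ι ((D₀ ^ n) v) := by
    intro n
    induction n with
    | zero => intro v; simp
    | succ n ih =>
      intro v
      rw [pow_succ', pow_succ', Module.End.mul_apply, Module.End.mul_apply, ih, hι]
  have h2 : ∀ v, (D ^ p) (ι v) = 0 := by
    intro v
    rw [h1, hp]
    simp
  have h3 : (D ^ p) (1 : A) = 0 := by
    obtain ⟨q, hq⟩ := Nat.exists_eq_succ_of_ne_zero (Fact.out : p.Prime).ne_zero
    rw [hq, Nat.succ_eq_add_one, pow_succ, Module.End.mul_apply, leib_one D hD, map_zero]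
  obtain ⟨d, hd⟩ := h.exhaust a
  induction hd using Submodule.span_induction with
  | mem a ha =>
    obtain ⟨l, -, rfl⟩ := ha
    induction l with
    | nil => simpa using h3
    | cons v l ih =>
      rw [List.map_cons, List.prod_cons, leib_char p D hD, h2, ih, zero_mul, mul_zero, add_zero]
  | zero => simp
  | add x y _ _ hx hy => rw [map_add, hx, hy, add_zero]
  | smul c x _ hx => rw [map_smul, hx, smul_zero]

/-- `s` is homogeneous of degree `m` and lifts to an element killed by `D`. -/
def Lft (D : A →ₗ[k] A) (ι : V →ₗ[k] A) (symb : MvPolynomial X k →ₗ[k] A) (m : ℕ)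
    (s : MvPolynomial X k) : Prop :=
  s.IsHomogeneous m ∧ ∃ v : A, D v = 0 ∧ v - symb s ∈ G ι m

theorem Lft.add {D : A →ₗ[k] A} {m : ℕ} {s t : MvPolynomial X k} (hs : Lft D ι symb m s)
    (ht : Lft D ι symb m t) : Lft D ι symb m (s + t) := by
  obtain ⟨h1, v, hv, hv2⟩ := hs
  obtain ⟨h3, w, hw, hw2⟩ := ht
  refine ⟨h1.add h3, v + w, by rw [map_add, hv, hw, add_zero], ?_⟩
  rw [map_add]
  have := Submodule.add_mem _ hv2 hw2
  convert this using 1
  abel

theorem Lft.zero {D : A →ₗ[k] A} {m : ℕ} : Lft D ι symb m (0 : MvPolynomial X k) :=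
  ⟨isHomogeneous_zero _ _ _, 0, by simp, by simp⟩

theorem Lft.sum {D : A →ₗ[k] A} {m : ℕ} {J : Type*} (s : Finset J) (f : J → MvPolynomial X k)
    (hf : ∀ j ∈ s, Lft D ι symb m (f j)) : Lft D ι symb m (∑ j ∈ s, f j) := by
  classical
  induction s using Finset.induction_on with
  | empty => simpa using Lft.zero
  | insert a s ha ih =>
    rw [Finset.sum_insert ha]
    exact Lft.add (hf a (Finset.mem_insert_self _ _))
      (ih fun j hj => hf j (Finset.mem_insert_of_mem hj))

theorem Lft.smul {D : A →ₗ[k] A} {m : ℕ} {s : MvPolynomial X k} (hs : Lft D ι symb m s) (c : k) :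
    Lft D ι symb m (c • s) := by
  obtain ⟨h1, v, hv, hv2⟩ := hs
  refine ⟨(homogeneousSubmodule X k m).smul_mem c h1, c • v, by rw [map_smul, hv, smul_zero], ?_⟩
  rw [map_smul, ← smul_sub]
  exact Submodule.smul_mem _ _ hv2

theorem Lft.one (h : PBW ι e symb) {D : A →ₗ[k] A} (hD : ∀ a b, D (a * b) = D a * b + a * D b) :
    Lft D ι symb 0 (1 : MvPolynomial X k) :=
  ⟨isHomogeneous_one _ _, 1, leib_one D hD, by rw [h.symb_one, sub_self]; exact Submodule.zero_mem _⟩

theorem Lft.mul (h : PBW ι e symb) {D : A →ₗ[k] A} (hD : ∀ a b, D (a * b) = D a * b + a * D b)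
    {m n : ℕ} {s t : MvPolynomial X k} (hs : Lft D ι symb m s) (ht : Lft D ι symb n t) :
    Lft D ι symb (m + n) (s * t) := by
  obtain ⟨h1, v, hv, hv2⟩ := hs
  obtain ⟨h3, w, hw, hw2⟩ := ht
  refine ⟨h1.mul h3, v * w, by rw [hD, hv, hw, zero_mul, mul_zero, add_zero], ?_⟩
  have e1 := h.symb_mul h1 h3
  have hw3 : w ∈ G ι (n + 1) := by
    have := Submodule.add_mem _ (G_mono ι (Nat.le_succ n) hw2) (h.symb_hom h3)
    rwa [sub_add_cancel] at this
  have e2 := G_mul' ι hv2 hw3
  have e3 := G_mul ι (h.symb_hom h1) hw2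
  have e4 := Submodule.add_mem _ (Submodule.add_mem _ e1 e2) e3
  convert e4 using 1
  noncomm_ring

theorem Lft.pow (h : PBW ι e symb) {D : A →ₗ[k] A} (hD : ∀ a b, D (a * b) = D a * b + a * D b)
    {m : ℕ} {s : MvPolynomial X k} (hs : Lft D ι symb m s) (n : ℕ) :
    Lft D ι symb (n * m) (s ^ n) := by
  induction n with
  | zero =>
    rw [zero_mul, pow_zero]
    exact Lft.one h hD
  | succ n ih =>
    rw [pow_succ, add_mul, one_mul]
    exact Lft.mul h hD ih hs

theorem Lft.prod (h : PBW ι e symb) {D : A →ₗ[k] A} (hD : ∀ a b, D (a * b) = D a * b + a * D b)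
    {J : Type*} (s : Finset J) (m : J → ℕ) (f : J → MvPolynomial X k)
    (hf : ∀ j ∈ s, Lft D ι symb (m j) (f j)) : Lft D ι symb (∑ j ∈ s, m j) (∏ j ∈ s, f j) := by
  classical
  induction s using Finset.induction_on with
  | empty => simpa using Lft.one h hD
  | insert a s ha ih =>
    rw [Finset.sum_insert ha, Finset.prod_insert ha]
    exact Lft.mul h hD (hf a (Finset.mem_insert_self _ _))
      (ih fun j hj => hf j (Finset.mem_insert_of_mem hj))

/-- `D ^ (p - 1) g` lifts. -/
theorem Lft.of_pow (h : PBW ι e symb) (p : ℕ) [Fact p.Prime] [CharP k p] {D : A →ₗ[k] A}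
    (hD : ∀ a b, D (a * b) = D a * b + a * D b) (D₀ : V →ₗ[k] V) (hι : ∀ v, D (ι v) = ι (D₀ v))
    (hp : D₀ ^ p = 0) (nx : X → Option X) (hnx : ∀ x, D₀ (e x) = (nx x).elim 0 e) {m : ℕ}
    {g : MvPolynomial X k} (hg : g.IsHomogeneous m) :
    Lft D ι symb m ((((DX k nx : Derivation k (MvPolynomial X k) (MvPolynomial X k)) :
      MvPolynomial X k →ₗ[k] MvPolynomial X k) ^ (p - 1)) g) := by
  refine ⟨pow_DX_hom nx hg _, (D ^ (p - 1)) (symb g), ?_, h.pow_compat D hD D₀ hι nx hnx hg _⟩
  rw [← Module.End.mul_apply, ← pow_succ', Nat.sub_add_cancel (Fact.out : p.Prime).one_le]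
  exact h.pow_char p D hD D₀ hι hp _

/-- The `p`-th powers lift. -/
theorem Lft.pth (h : PBW ι e symb) (p : ℕ) [hp : Fact p.Prime] {D : A →ₗ[k] A}
    (x : X) (hξ : ∃ v', D (ι (e x) ^ p - ι v') = 0) :
    Lft D ι symb p ((MvPolynomial.X x : MvPolynomial X k) ^ p) := by
  obtain ⟨v', hv'⟩ := hξ
  refine ⟨by simpa using (isHomogeneous_X k x).pow p, ι (e x) ^ p - ι v', hv', ?_⟩
  have h1 : ∀ n : ℕ, ι (e x) ^ n - symb ((MvPolynomial.X x : MvPolynomial X k) ^ n) ∈ G ι n := by
    intro n
    induction n with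
    | zero =>
      rw [pow_zero, pow_zero, h.symb_one, sub_self]
      exact Submodule.zero_mem _
    | succ n ih =>
      have hn : ((MvPolynomial.X x : MvPolynomial X k) ^ n).IsHomogeneous n := by
        simpa using (isHomogeneous_X k x).pow n
      have e1 := h.symb_mul hn (isHomogeneous_X k x)
      have e2 := G_mul' ι ih (iota_mem_G ι (e x) (d := 1 + 1) (by omega))
      rw [h.symb_X] at e1
      rw [pow_succ, pow_succ]
      have e3 := Submodule.add_mem _ e1 e2
      convert e3 using 1
      noncomm_ring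
  have h2 := Submodule.sub_mem _ (h1 p) (iota_mem_G ι v' hp.out.one_lt)
  convert h2 using 1
  abel

end PBW

end Pool.Agent.Helper58.KW
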