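import Mathlib
import Pool.Agent.Helper58.KW.Lift

/-!
# Equivariant sections in low block degrees
-/

namespace Pool.Agent.Helper58.KW

open MvPolynomial Module Finset

variable {k : Type*} [Field k] {V : Type*} [AddCommGroup V] [Module k V] {A : Type*} [Ring A]
  [Algebra k A] {X : Type*} [Fintype X] [DecidableEq X] {I : Type*} [DecidableEq I]

/-- Symmetrisation along a list of blocks. -/
noncomputable def Psi (ι : V →ₗ[k] A) (e : Basis X k V) (blk : X → I) :
    List I → (MvPolynomial X k →ₗ[k] A)
  | [] => (lcoeff k (0 : X →₀ ℕ)).smulRight (1 : A)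
  | i :: l => ∑ x ∈ univ.filter (fun x => blk x = i),
      (LinearMap.mulLeft k (ι (e x))) ∘ₗ (Psi ι e blk l) ∘ₗ
        ((pderiv x : Derivation k (MvPolynomial X k) (MvPolynomial X k)) :
          MvPolynomial X k →ₗ[k] MvPolynomial X k)

theorem Psi_nil (ι : V →ₗ[k] A) (e : Basis X k V) (blk : X → I) (s : MvPolynomial X k) :
    Psi ι e blk [] s = coeff 0 s • (1 : A) := rfl

theorem Psi_cons (ι : V →ₗ[k] A) (e : Basis X k V) (blk : X → I) (i : I) (l : List I)
    (s : MvPolynomial X k) : Psi ι e blk (i :: l) s =
      ∑ x ∈ univ.filter (fun x => blk x = i), ι (e x) * Psi ι e blk l (pderiv x s) := by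
  simp only [Psi, LinearMap.sum_apply, LinearMap.comp_apply, LinearMap.mulLeft_apply,
    Derivation.coeFn_coe]

omit [Fintype X] [DecidableEq X] in
theorem der_sum {J : Type*} (s : Finset J)
    (f : J → Derivation k (MvPolynomial X k) (MvPolynomial X k)) (a : MvPolynomial X k) :
    (∑ j ∈ s, f j) a = ∑ j ∈ s, f j a := by
  classical
  induction s using Finset.induction_on with
  | empty => simp
  | insert j s hj ih => rw [Finset.sum_insert hj, Finset.sum_insert hj, Derivation.add_apply, ih]

theorem pderiv_DX (nx : X → Option X) (x : X) (s : MvPolynomial X k) :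
    pderiv x (DX k nx s) = DX k nx (pderiv x s) +
      ∑ y ∈ univ.filter (fun y => nx y = some x), pderiv y s := by
  have h : ⁅(pderiv x : Derivation k (MvPolynomial X k) (MvPolynomial X k)), DX k nx⁆ =
      ∑ y ∈ univ.filter (fun y => nx y = some x),
        (pderiv y : Derivation k (MvPolynomial X k) (MvPolynomial X k)) := by
    apply derivation_ext
    intro z
    rw [Derivation.commutator_apply, DX_X, der_sum]
    have h1 : DX k nx (pderiv x (MvPolynomial.X z : MvPolynomial X k)) = 0 := by
      rw [pderiv_X]
      by_cases hxz : x = z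
      · subst hxz
        simp
      · rw [Pi.single_eq_of_ne (fun h => hxz h.symm)]
        simp
    rw [h1, sub_zero]
    have h2 : ∀ y ∈ univ.filter (fun y => nx y = some x),
        pderiv y (MvPolynomial.X z : MvPolynomial X k) = if y = z then 1 else 0 := by
      intro y _
      rw [pderiv_X, Pi.single_apply]
      simp only [eq_comm]
    rw [Finset.sum_congr rfl h2, Finset.sum_ite_eq']
    cases hz : nx z with
    | none => simp [hz]
    | some w =>
      rw [Option.elim_some, pderiv_X, Pi.single_apply]
      by_cases hw : w = x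
      · subst hw
        rw [if_pos rfl, if_pos (by simp [hz])]
      · rw [if_neg hw, if_neg (by simp [hz, hw])]
  have h3 := congrArg (fun D : Derivation k (MvPolynomial X k) (MvPolynomial X k) => D s) h
  simp only [Derivation.commutator_apply] at h3
  rw [der_sum] at h3
  rw [← h3]
  abel

/-- Equivariance. -/
theorem Psi_equivariant (ι : V →ₗ[k] A) (e : Basis X k V) (blk : X → I) (D : A →ₗ[k] A)
    (hD : ∀ a b, D (a * b) = D a * b + a * D b) (D₀ : V →ₗ[k] V) (hι : ∀ v, D (ι v) = ι (D₀ v))
    (nx : X → Option X) (hnx : ∀ x, D₀ (e x) = (nx x).elim 0 e)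
    (hblk : ∀ x y, nx x = some y → blk y = blk x) (l : List I) (s : MvPolynomial X k) :
    D (Psi ι e blk l s) = Psi ι e blk l (DX k nx s) := by
  induction l generalizing s with
  | nil =>
    rw [Psi_nil, Psi_nil, map_smul, leib_one D hD, smul_zero]
    have h0 : coeff 0 (DX k nx s) = 0 := by
      by_contra hne
      rw [s.as_sum, map_sum, coeff_sum] at hne
      obtain ⟨ν, -, hν⟩ := Finset.exists_ne_zero_of_sum_ne_zero hne
      obtain ⟨x, y, -, -, -, h4⟩ := wd_support _ _ (MvPolynomial.mem_support_iff.2 hν)
      have h5 := congrArg (fun f => f y) h4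
      simp only [Finsupp.add_apply, Finsupp.single_eq_same, Finsupp.coe_zero, Pi.zero_apply] at h5
      omega
    rw [h0, zero_smul]
  | cons i l ih =>
    rw [Psi_cons, Psi_cons, map_sum]
    have h1 : ∀ x ∈ univ.filter (fun x => blk x = i),
        D (ι (e x) * Psi ι e blk l (pderiv x s)) =
          ι ((nx x).elim 0 e) * Psi ι e blk l (pderiv x s) +
            ι (e x) * Psi ι e blk l (DX k nx (pderiv x s)) := by
      intro x _
      rw [hD, hι, hnx, ih]
    have h2 : ∀ x ∈ univ.filter (fun x => blk x = i),
        ι (e x) * Psi ι e blk l (pderiv x (DX k nx s)) =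
          ι (e x) * Psi ι e blk l (DX k nx (pderiv x s)) +
            ∑ y ∈ univ.filter (fun y => nx y = some x), ι (e x) * Psi ι e blk l (pderiv y s) := by
      intro x _
      rw [pderiv_DX, map_add, mul_add, map_sum, Finset.mul_sum]
    rw [Finset.sum_congr rfl h1, Finset.sum_congr rfl h2, Finset.sum_add_distrib,
      Finset.sum_add_distrib, add_comm]
    congr 1
    -- both sides are sums over the pairs
    have h3 : ∀ x ∈ univ.filter (fun x => blk x = i),
        ι ((nx x).elim 0 e) * Psi ι e blk l (pderiv x s) =
          ∑ y ∈ univ.filter (fun y => nx x = some y), ι (e y) * Psi ι e blk l (pderiv x s) := by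
      intro x _
      cases hx : nx x with
      | none => simp
      | some w =>
        rw [Option.elim_some]
        have h4 : univ.filter (fun y => (some w : Option X) = some y) = {w} := by
          ext y
          simp [eq_comm]
        rw [h4, Finset.sum_singleton]
    rw [Finset.sum_congr rfl h3]
    simp only [Finset.sum_filter]
    have h5 : ∀ x : X, (if blk x = i then ∑ a, if nx x = some a then
        ι (e a) * Psi ι e blk l (pderiv x s) else 0 else 0) =
        ∑ a, if blk x = i ∧ nx x = some a then ι (e a) * Psi ι e blk l (pderiv x s) else 0 := by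
      intro x
      by_cases hx : blk x = i
      · rw [if_pos hx]
        refine Finset.sum_congr rfl fun a _ => ?_
        simp [hx]
      · rw [if_neg hx]
        symm
        refine Finset.sum_eq_zero fun a _ => ?_
        simp [hx]
    have h6 : ∀ x : X, (if blk x = i then ∑ a, if nx a = some x then
        ι (e x) * Psi ι e blk l (pderiv a s) else 0 else 0) =
        ∑ a, if blk a = i ∧ nx a = some x then ι (e x) * Psi ι e blk l (pderiv a s) else 0 := by
      intro x
      by_cases hx : blk x = i
      · rw [if_pos hx]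
        refine Finset.sum_congr rfl fun a _ => ?_
        by_cases ha : nx a = some x
        · rw [if_pos ha, if_pos ⟨by rw [← hblk a x ha, hx], ha⟩]
        · rw [if_neg ha, if_neg (fun h => ha h.2)]
      · rw [if_neg hx]
        symm
        refine Finset.sum_eq_zero fun a _ => ?_
        rw [if_neg]
        rintro ⟨h7, h8⟩
        exact hx (by rw [hblk a x h8, h7])
    rw [Finset.sum_congr rfl fun x _ => h5 x, Finset.sum_congr rfl fun x _ => h6 x,
      Finset.sum_comm]

/-- The normalising factor. -/
def cfac : List I → ℕ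
  | [] => 1
  | i :: l => (l.count i + 1) * cfac l

theorem cfac_ne (p : ℕ) [hp : Fact p.Prime] [CharP k p] (l : List I) (h : ∀ i, l.count i < p) :
    ((cfac l : ℕ) : k) ≠ 0 := by
  induction l with
  | nil => simp [cfac]
  | cons i l ih =>
    have h1 : ((l.count i + 1 : ℕ) : k) ≠ 0 := by
      rw [Ne, CharP.cast_eq_zero_iff k p]
      refine Nat.not_dvd_of_pos_of_lt (Nat.succ_pos _) ?_
      have := h i
      rwa [List.count_cons_self] at this
    have h2 := ih fun j => lt_of_le_of_lt (List.count_le_count_cons) (h j)
    show (((l.count i + 1) * cfac l : ℕ) : k) ≠ 0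
    rw [Nat.cast_mul]
    exact mul_ne_zero h1 h2

/-- Block degrees given by a list. -/
def BD (blk : X → I) (l : List I) (s : MvPolynomial X k) : Prop :=
  s.IsHomogeneous l.length ∧
    ∀ i, s.IsWeightedHomogeneous (fun x => if blk x = i then 1 else 0) (l.count i)

omit [Fintype X] [DecidableEq X] in
theorem BD.pderiv {blk : X → I} {i : I} {l : List I} {s : MvPolynomial X k}
    (h : BD blk (i :: l) s) {x : X} (hx : blk x = i) : BD blk l (pderiv x s) := by
  refine ⟨?_, fun j => ?_⟩
  · have h1 : s.IsHomogeneous (l.length + 1) := by simpa using h.1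
    exact IsWeightedHomogeneous.pderiv h1 rfl
  · refine IsWeightedHomogeneous.pderiv (h.2 j) ?_
    rw [List.count_cons, hx]
    by_cases hij : i = j
    · simp [hij]
    · simp [hij]

theorem Psi_lead {ι : V →ₗ[k] A} {e : Basis X k V} {symb : MvPolynomial X k →ₗ[k] A}
    (h : PBW ι e symb) (blk : X → I) (l : List I) {s : MvPolynomial X k} (hs : BD blk l s) :
    Psi ι e blk l s - (cfac l : k) • symb s ∈ G ι l.length := by
  induction l generalizing s with
  | nil =>
    have h1 : s = C (coeff 0 s) := by
      rw [← totalDegree_eq_zero_iff_eq_C, totalDegree_zero_iff_isHomogeneous]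
      exact hs.1
    have h2 : symb s = coeff 0 s • (1 : A) := by
      conv_lhs => rw [h1]
      rw [← h.symb_one, ← map_smul, smul_eq_C_mul, mul_one]
    rw [Psi_nil, h2]
    simp [cfac]
  | cons i l ih =>
    rw [Psi_cons]
    have h1 : ∀ x ∈ univ.filter (fun x => blk x = i),
        ι (e x) * Psi ι e blk l (MvPolynomial.pderiv x s) -
          (cfac l : k) • symb (MvPolynomial.X x * MvPolynomial.pderiv x s) ∈
            G ι (1 + l.length) := by
      intro x hx
      rw [Finset.mem_filter] at hx
      have hd := hs.pderiv hx.2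
      have e1 := G_mul ι (iota_mem_G ι (e x) (d := 1 + 1) (by omega)) (ih hd)
      have e2 := h.symb_mul (isHomogeneous_X k x) hd.1
      have e3 := Submodule.smul_mem _ (cfac l : k) e2
      rw [h.symb_X] at e3
      have e4 := Submodule.add_mem _ e1 e3
      convert e4 using 1
      rw [mul_sub, smul_sub, mul_smul_comm]
      abel
    have h2 := Submodule.sum_mem _ h1
    rw [Finset.sum_sub_distrib, ← Finset.smul_sum, ← map_sum] at h2
    have h3 : ∑ x ∈ univ.filter (fun x => blk x = i),
        (MvPolynomial.X x * MvPolynomial.pderiv x s) = (l.count i + 1) • s := by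
      have h4 := (hs.2 i).sum_weight_X_mul_pderiv
      rw [List.count_cons_self] at h4
      rw [← h4, Finset.sum_filter]
      refine Finset.sum_congr rfl fun x _ => ?_
      by_cases hx : blk x = i
      · rw [if_pos hx, if_pos hx, one_smul]
      · rw [if_neg hx, if_neg hx, zero_smul]
    rw [h3] at h2
    rw [List.length_cons, add_comm l.length 1]
    convert h2 using 2
    rw [map_nsmul, ← Nat.cast_smul_eq_nsmul k (l.count i + 1) (symb s), smul_smul]
    congr 1
    show (((l.count i + 1) * cfac l : ℕ) : k) = _
    rw [Nat.cast_mul, mul_comm]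

/-- Invariants of low block degrees lift. -/
theorem Lft.of_BD {ι : V →ₗ[k] A} {e : Basis X k V} {symb : MvPolynomial X k →ₗ[k] A}
    (h : PBW ι e symb) (p : ℕ) [Fact p.Prime] [CharP k p] {D : A →ₗ[k] A}
    (hD : ∀ a b, D (a * b) = D a * b + a * D b) (D₀ : V →ₗ[k] V) (hι : ∀ v, D (ι v) = ι (D₀ v))
    (nx : X → Option X) (hnx : ∀ x, D₀ (e x) = (nx x).elim 0 e) (blk : X → I)
    (hblk : ∀ x y, nx x = some y → blk y = blk x) (l : List I) (hl : ∀ i, l.count i < p)
    {s : MvPolynomial X k} (hs : BD blk l s) (hDs : DX k nx s = 0) :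
    Lft D ι symb l.length s := by
  have hc : (cfac l : k) ≠ 0 := cfac_ne p l hl
  refine ⟨hs.1, (cfac l : k)⁻¹ • Psi ι e blk l s, ?_, ?_⟩
  · rw [map_smul, Psi_equivariant ι e blk D hD D₀ hι nx hnx hblk, hDs, map_zero, smul_zero]
  · have h1 := Submodule.smul_mem _ (cfac l : k)⁻¹ (Psi_lead h blk l hs)
    rwa [smul_sub, smul_smul, inv_mul_cancel₀ hc, one_smul] at h1

end Pool.Agent.Helper58.KW
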