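import Mathlib
import Pool.Agent.Helper58.KW.Psi

/-!
# Block decompositions of the variables
-/

namespace Pool.Agent.Helper58.KW

open MvPolynomial Module Finset

/-- A decomposition of the variables into Jordan blocks. -/
structure Jd (X I : Type*) where
  blk : X → I
  pos : X → ℕ
  sz : I → ℕ
  att : I → ℕ → Option X
  att_iff : ∀ i j x, att i j = some x ↔ blk x = i ∧ pos x = j
  att_none : ∀ i j, att i j = none ↔ sz i ≤ j

namespace Jd

variable {X I : Type*} (J : Jd X I)

/-- The next variable. -/
def nx (x : X) : Option X := J.att (J.blk x) (J.pos x + 1)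

theorem nx_some {x y : X} (h : J.nx x = some y) : J.blk y = J.blk x ∧ J.pos y = J.pos x + 1 :=
  (J.att_iff _ _ _).1 h

theorem att_self (x : X) : J.att (J.blk x) (J.pos x) = some x := (J.att_iff _ _ _).2 ⟨rfl, rfl⟩

theorem inj {x y : X} (h1 : J.blk x = J.blk y) (h2 : J.pos x = J.pos y) : x = y := by
  have h3 := J.att_self x
  rw [h1, h2, J.att_self y] at h3
  exact (Option.some.inj h3).symm

theorem pos_lt (x : X) : J.pos x < J.sz (J.blk x) := by
  by_contra h
  have h1 := (J.att_none (J.blk x) (J.pos x)).2 (by omega)
  rw [J.att_self x] at h1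
  exact absurd h1 (by simp)

theorem itn_eq (m : ℕ) (x : X) : itn J.nx m x = J.att (J.blk x) (J.pos x + m) := by
  induction m with
  | zero => exact (J.att_self x).symm
  | succ m ih =>
    rw [itn_succ, ih]
    cases h : J.att (J.blk x) (J.pos x + m) with
    | none =>
      rw [Option.bind_none]
      rw [J.att_none] at h
      symm
      rw [J.att_none]
      omega
    | some y =>
      rw [Option.bind_some]
      obtain ⟨h1, h2⟩ := (J.att_iff _ _ _).1 h
      unfold nx
      rw [h1, h2]
      rfl

theorem itn_none {p : ℕ} (hsz : ∀ i, J.sz i ≤ p) (x : X) : itn J.nx p x = none := by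
  rw [itn_eq, att_none]
  have := hsz (J.blk x)
  omega

end Jd

section transport

variable {k : Type*} [Field k] {X I : Type*} [Fintype X] [DecidableEq X] [DecidableEq I]
  (J : Jd X I)

/-- Single out the block `i`. -/
def eps (i : I) (x : X) : X ⊕ ℕ := if J.blk x = i then Sum.inr (J.pos x) else Sum.inl x

theorem eps_inj (i : I) : Function.Injective (eps J i) := by
  intro x y hxy
  unfold eps at hxy
  by_cases hx : J.blk x = i
  · by_cases hy : J.blk y = i
    · rw [if_pos hx, if_pos hy] at hxy
      exact J.inj (by rw [hx, hy]) (Sum.inr_injective hxy)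
    · rw [if_pos hx, if_neg hy] at hxy
      exact absurd hxy (by simp)
  · by_cases hy : J.blk y = i
    · rw [if_neg hx, if_pos hy] at hxy
      exact absurd hxy (by simp)
    · rw [if_neg hx, if_neg hy] at hxy
      exact Sum.inl_injective hxy

/-- The retraction. -/
noncomputable def ret (k : Type*) [Field k] (i : I) : MvPolynomial (X ⊕ ℕ) k →ₐ[k] MvPolynomial X k :=
  aeval (Sum.elim (fun x => if J.blk x = i then 0 else MvPolynomial.X x)
    (fun j => (J.att i j).elim 0 MvPolynomial.X))

theorem ret_inl (i : I) (x : X) : ret J k i (MvPolynomial.X (Sum.inl x)) =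
    if J.blk x = i then 0 else MvPolynomial.X x := by
  unfold ret
  rw [aeval_X]
  rfl

theorem ret_inr (i : I) (j : ℕ) : ret J k i (MvPolynomial.X (Sum.inr j)) =
    (J.att i j).elim 0 MvPolynomial.X := by
  unfold ret
  rw [aeval_X]
  rfl

theorem ret_rename (i : I) (f : MvPolynomial X k) : ret J k i (rename (eps J i) f) = f := by
  have h : (ret J k i).comp (rename (eps J i)) = AlgHom.id k (MvPolynomial X k) := by
    apply algHom_ext
    intro x
    rw [AlgHom.comp_apply, rename_X, AlgHom.id_apply]
    unfold eps
    by_cases hx : J.blk x = i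
    · rw [if_pos hx, ret_inr, ← hx, J.att_self]
      rfl
    · rw [if_neg hx, ret_inl, if_neg hx]
  exact congrArg (fun g : MvPolynomial X k →ₐ[k] MvPolynomial X k => g f) h

theorem ret_Dn (i : I) (f : MvPolynomial (X ⊕ ℕ) k) :
    ret J k i (Dn k J.nx (J.sz i) f) = DX k J.nx (ret J k i f) := by
  induction f using MvPolynomial.induction_on with
  | C a =>
    rw [derivation_C, map_zero, ← algebraMap_eq, AlgHom.commutes, algebraMap_eq, derivation_C]
  | add a b ha hb => rw [map_add, map_add, ha, hb, map_add, map_add]
  | mul_X a x ha =>
    have hx : ret J k i (Dn k J.nx (J.sz i) (MvPolynomial.X x)) =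
        DX k J.nx (ret J k i (MvPolynomial.X x)) := by
      rcases x with z | j
      · rw [Dn_inl, ret_inl]
        by_cases hz : J.blk z = i
        · rw [if_pos hz, map_zero]
          cases h : J.nx z with
          | none => simp
          | some w =>
            rw [Option.map_some, Option.elim_some, ret_inl, if_pos]
            rw [(J.nx_some h).1, hz]
        · rw [if_neg hz, DX_X]
          cases h : J.nx z with
          | none => simp
          | some w =>
            rw [Option.map_some, Option.elim_some, ret_inl, if_neg]
            · rfl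
            · rw [(J.nx_some h).1]
              exact hz
      · rw [Dn_inr, ret_inr]
        cases h : J.att i j with
        | none =>
          rw [J.att_none] at h
          rw [if_neg (by omega), map_zero]
          simp
        | some x =>
          obtain ⟨h1, h2⟩ := (J.att_iff _ _ _).1 h
          rw [Option.elim_some, DX_X]
          have h3 : J.nx x = J.att i (j + 1) := by
            unfold Jd.nx
            rw [h1, h2]
          rw [h3]
          by_cases h4 : j + 1 < J.sz i
          · rw [if_pos h4, ret_inr]
          · rw [if_neg h4, map_zero, (J.att_none i (j + 1)).2 (by omega)]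
            rfl
    simp only [Derivation.leibniz, smul_eq_mul, map_add, map_mul]
    rw [ha, hx]

theorem pow_ret (i : I) (m : ℕ) (f : MvPolynomial (X ⊕ ℕ) k) :
    ret J k i (((Ln k J.nx (J.sz i)) ^ m) f) =
      (((DX k J.nx : Derivation k (MvPolynomial X k) (MvPolynomial X k)) :
        MvPolynomial X k →ₗ[k] MvPolynomial X k) ^ m) (ret J k i f) := by
  induction m with
  | zero => simp
  | succ m ih =>
    rw [pow_succ', pow_succ', Module.End.mul_apply, Module.End.mul_apply, Ln_apply, ret_Dn, ih]
    rfl

theorem Dn_rename (i : I) (f : MvPolynomial X k) :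
    Dn k J.nx (J.sz i) (rename (eps J i) f) = rename (eps J i) (DX k J.nx f) := by
  induction f using MvPolynomial.induction_on with
  | C a => rw [derivation_C, map_zero, rename_C, derivation_C]
  | add a b ha hb => rw [map_add, map_add, ha, hb, map_add, map_add]
  | mul_X a x ha =>
    have hx : Dn k J.nx (J.sz i) (rename (eps J i) (MvPolynomial.X x)) =
        rename (eps J i) (DX k J.nx (MvPolynomial.X x)) := by
      rw [rename_X, DX_X]
      by_cases hx : J.blk x = i
      · have e1 : eps J i x = Sum.inr (J.pos x) := if_pos hx
        rw [e1, Dn_inr]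
        have h3 : J.nx x = J.att i (J.pos x + 1) := by
          unfold Jd.nx
          rw [hx]
        rw [h3]
        cases h : J.att i (J.pos x + 1) with
        | none =>
          rw [J.att_none] at h
          rw [if_neg (by omega)]
          simp
        | some y =>
          obtain ⟨h1, h2⟩ := (J.att_iff _ _ _).1 h
          have h4 : J.pos x + 1 < J.sz i := by
            rw [← h2, ← h1]
            exact J.pos_lt y
          rw [if_pos h4, Option.elim_some, rename_X]
          have e2 : eps J i y = Sum.inr (J.pos y) := if_pos h1
          rw [e2, h2]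
      · have e1 : eps J i x = Sum.inl x := if_neg hx
        rw [e1, Dn_inl]
        cases h : J.nx x with
        | none => simp
        | some w =>
          have e2 : eps J i w = Sum.inl w := if_neg (by rw [(J.nx_some h).1]; exact hx)
          rw [Option.map_some, Option.elim_some, Option.elim_some, rename_X, e2]
    rw [map_mul, Derivation.leibniz, Derivation.leibniz, map_add, smul_eq_mul, smul_eq_mul,
      smul_eq_mul, smul_eq_mul, map_mul, map_mul, ha, hx]

theorem transport (p : ℕ) [hp : Fact p.Prime] [CharP k p] (hsz : ∀ i, J.sz i ≤ p) (i : I) {b : ℕ}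
    (hb : p < J.sz i + b) {r : MvPolynomial X k}
    (hr : ∀ μ ∈ r.support, ∑ x ∈ univ.filter (fun x => J.blk x = i), μ x = b ∧
      ∀ x, J.blk x = i → J.pos x = 0 → μ x < p) (hD : DX k J.nx r = 0) :
    ∃ g, (((DX k J.nx : Derivation k (MvPolynomial X k) (MvPolynomial X k)) :
        MvPolynomial X k →ₗ[k] MvPolynomial X k) ^ (p - 1)) g = r := by
  rcases Nat.eq_zero_or_pos (J.sz i) with h0 | h0
  · refine ⟨0, ?_⟩
    rw [map_zero]
    by_contra hne
    obtain ⟨μ, hμ⟩ := MvPolynomial.support_nonempty.2 (fun h => hne h.symm)
    obtain ⟨h1, -⟩ := hr μ hμ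
    have h2 : univ.filter (fun x => J.blk x = i) = ∅ := by
      rw [Finset.filter_eq_empty_iff]
      intro x _ hx
      have := J.pos_lt x
      rw [hx, h0] at this
      omega
    rw [h2, Finset.sum_empty] at h1
    have := hsz i
    omega
  · obtain ⟨n, hn⟩ : ∃ n, J.sz i = n + 1 := ⟨J.sz i - 1, by omega⟩
    have hgood : GoodB k p J.nx (J.sz i) b := by
      rw [hn]
      refine good_all p J.nx (fun z => J.itn_none hsz z) n ?_ b ?_
      · have := hsz i
        omega
      · omega
    have hmem : rename (eps J i) r ∈ B k X p (J.sz i) b := by
      rw [B, mem_restrictSupport_iff]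
      intro ν hν
      rw [Finset.mem_coe, support_rename_of_injective (eps_inj J i), Finset.mem_image] at hν
      obtain ⟨μ, hμ, rfl⟩ := hν
      obtain ⟨h1, h2⟩ := hr μ hμ
      have hval : ∀ x, J.blk x = i →
          Finsupp.mapDomain (eps J i) μ (Sum.inr (J.pos x)) = μ x := by
        intro x hx
        have e1 : eps J i x = Sum.inr (J.pos x) := if_pos hx
        rw [← e1]
        exact Finsupp.mapDomain_apply (eps_inj J i) μ x
      refine ⟨fun j hj => ?_, ?_, ?_⟩
      · refine Finsupp.mapDomain_of_notMem_range _ _ ?_
        rintro ⟨x, hx⟩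
        by_cases hxi : J.blk x = i
        · have e1 : eps J i x = Sum.inr (J.pos x) := if_pos hxi
          rw [e1] at hx
          have e2 := Sum.inr_injective hx
          have := J.pos_lt x
          rw [hxi] at this
          omega
        · have e1 : eps J i x = Sum.inl x := if_neg hxi
          rw [e1] at hx
          exact absurd hx (by simp)
      · rw [← h1]
        symm
        refine Finset.sum_bij (fun x _ => J.pos x) ?_ ?_ ?_ ?_
        · intro x hx
          rw [Finset.mem_filter] at hx
          rw [Finset.mem_range, ← hx.2]
          exact J.pos_lt x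
        · intro x hx y hy hxy
          rw [Finset.mem_filter] at hx hy
          exact J.inj (by rw [hx.2, hy.2]) hxy
        · intro j hj
          rw [Finset.mem_range] at hj
          cases h : J.att i j with
          | none =>
            rw [J.att_none] at h
            omega
          | some x =>
            obtain ⟨h3, h4⟩ := (J.att_iff _ _ _).1 h
            exact ⟨x, by rw [Finset.mem_filter]; exact ⟨Finset.mem_univ _, h3⟩, h4⟩
        · intro x hx
          rw [Finset.mem_filter] at hx
          exact (hval x hx.2).symm
      · cases h : J.att i 0 with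
        | none =>
          rw [J.att_none] at h
          omega
        | some x =>
          obtain ⟨h3, h4⟩ := (J.att_iff _ _ _).1 h
          have := hval x h3
          rw [h4] at this
          rw [this]
          exact h2 x h3 h4
    have hDz : Dn k J.nx (J.sz i) (rename (eps J i) r) = 0 := by
      rw [Dn_rename, hD, map_zero]
    obtain ⟨g, -, hg⟩ := hgood _ hmem hDz
    refine ⟨ret J k i g, ?_⟩
    rw [← pow_ret, hg, ret_rename]

end transport

end Pool.Agent.Helper58.KW
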