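import Mathlib
import Pool.Agent.Helper58.KW.Blocks

/-!
# Every invariant of degree at least two lifts
-/

namespace Pool.Agent.Helper58.KW

open MvPolynomial Module Finset

section comp

variable {k : Type*} [Field k] {X Λ : Type*} [DecidableEq Λ]

/-- The component of a polynomial with a given label. -/
noncomputable def comp (ℓ : (X →₀ ℕ) → Λ) (c : Λ) (s : MvPolynomial X k) : MvPolynomial X k :=
  ∑ ν ∈ s.support.filter (fun ν => ℓ ν = c), monomial ν (coeff ν s)

theorem coeff_comp (ℓ : (X →₀ ℕ) → Λ) (c : Λ) (s : MvPolynomial X k) (μ : X →₀ ℕ) :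
    coeff μ (comp ℓ c s) = if ℓ μ = c then coeff μ s else 0 := by
  classical
  unfold comp
  rw [coeff_sum]
  simp only [coeff_monomial]
  rw [Finset.sum_ite_eq']
  by_cases h : ℓ μ = c
  · rw [if_pos h]
    by_cases h2 : μ ∈ s.support
    · exact if_pos (Finset.mem_filter.2 ⟨h2, h⟩)
    · exact (if_neg (fun h3 => h2 (Finset.mem_filter.1 h3).1)).trans
        (MvPolynomial.notMem_support_iff.1 h2).symm
  · have h4 : μ ∉ s.support.filter (fun ν => ℓ ν = c) := fun h3 => h (Finset.mem_filter.1 h3).2
    rw [if_neg h]
    exact if_neg h4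

theorem sum_comp (ℓ : (X →₀ ℕ) → Λ) (s : MvPolynomial X k) :
    s = ∑ c ∈ s.support.image ℓ, comp ℓ c s := by
  ext μ
  rw [coeff_sum]
  simp only [coeff_comp]
  rw [Finset.sum_ite_eq]
  split_ifs with h
  · rfl
  · by_contra hne
    exact h (Finset.mem_image_of_mem _ (MvPolynomial.mem_support_iff.2 hne))

theorem comp_ker (ℓ : (X →₀ ℕ) → Λ) (T : MvPolynomial X k →ₗ[k] MvPolynomial X k)
    (hT : ∀ (ν : X →₀ ℕ) (a : k), ∀ μ ∈ (T (monomial ν a)).support, ℓ μ = ℓ ν)
    {s : MvPolynomial X k} (hs : T s = 0) (c : Λ) : T (comp ℓ c s) = 0 := by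
  classical
  ext μ
  rw [coeff_zero]
  unfold comp
  rw [map_sum, coeff_sum]
  by_cases h : ℓ μ = c
  · have h1 : coeff μ (T s) = 0 := by rw [hs, coeff_zero]
    conv_lhs at h1 => rw [s.as_sum]
    rw [map_sum, coeff_sum, ← Finset.sum_filter_add_sum_filter_not s.support (fun ν => ℓ ν = c)] at h1
    have h2 : ∑ ν ∈ s.support with ¬ℓ ν = c, coeff μ (T (monomial ν (coeff ν s))) = 0 := by
      refine Finset.sum_eq_zero fun ν hν => ?_
      rw [Finset.mem_filter] at hν
      by_contra hne
      exact hν.2 (by rw [← hT ν _ μ (MvPolynomial.mem_support_iff.2 hne), h])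
    rw [h2, add_zero] at h1
    exact h1
  · refine Finset.sum_eq_zero fun ν hν => ?_
    rw [Finset.mem_filter] at hν
    by_contra hne
    exact h (by rw [hT ν _ μ (MvPolynomial.mem_support_iff.2 hne), hν.2])

end comp

section main

variable {k : Type*} [Field k] {V : Type*} [AddCommGroup V] [Module k V] {A : Type*} [Ring A]
  [Algebra k A] {X : Type*} [Fintype X] [DecidableEq X] {I : Type*} [Fintype I] [DecidableEq I]

/-- The label of a monomial. -/
def lab (J : Jd X I) (p : ℕ) (ν : X →₀ ℕ) : I → ℕ × ℕ := fun i =>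
  ((J.att i 0).elim 0 ν / p, ∑ x ∈ univ.filter (fun x => J.blk x = i), ν x)

theorem lab_DX (J : Jd X I) (p : ℕ) [hp : Fact p.Prime] [CharP k p] (ν : X →₀ ℕ) (a : k) :
    ∀ μ ∈ (((DX k J.nx : Derivation k (MvPolynomial X k) (MvPolynomial X k)) :
        MvPolynomial X k →ₗ[k] MvPolynomial X k) (monomial ν a)).support,
      lab J p μ = lab J p ν := by
  intro μ hμ
  obtain ⟨x, y, h1, -, h3, rfl⟩ := wd_support _ _ hμ
  obtain ⟨h4, h5⟩ := J.nx_some h3
  have hx0 : ν x ≠ 0 := by
    intro h
    rw [h] at h1
    simp at h1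
  have hval : ∀ z, (ν - Finsupp.single x 1 + Finsupp.single y 1 : X →₀ ℕ) z =
      ν z - (if z = x then 1 else 0) + (if z = y then 1 else 0) := by
    intro z
    rw [Finsupp.add_apply, Finsupp.tsub_apply, Finsupp.single_apply, Finsupp.single_apply]
    simp only [eq_comm]
  funext i
  unfold lab
  congr 1
  · cases h : J.att i 0 with
    | none => rfl
    | some t =>
      obtain ⟨h6, h7⟩ := (J.att_iff _ _ _).1 h
      rw [Option.elim_some, Option.elim_some, hval]
      have h8 : t ≠ y := by
        rintro rfl
        omega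
      rw [if_neg h8]
      by_cases h9 : t = x
      · subst h9
        rw [if_pos rfl, add_zero]
        have h10 : ¬ p ∣ ν t := by
          rw [← CharP.cast_eq_zero_iff k p]
          exact h1
        have hp0 := hp.out.pos
        have h11 : ν t % p ≠ 0 := fun h => h10 (Nat.dvd_of_mod_eq_zero h)
        have h12 := Nat.div_add_mod (ν t) p
        have h13 : ν t - 1 = p * (ν t / p) + (ν t % p - 1) := by omega
        have h14 := Nat.mod_lt (ν t) hp0
        have h15 : (ν t % p - 1) / p = 0 := Nat.div_eq_of_lt (by omega)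
        rw [h13, Nat.mul_add_div hp0, h15, add_zero]
      · rw [if_neg h9]
        rfl
  · rw [Finset.sum_congr rfl fun z _ => hval z, Finset.sum_add_distrib]
    have hsum : ∑ z ∈ univ.filter (fun z => J.blk z = i), ν z =
        ∑ z ∈ univ.filter (fun z => J.blk z = i), ((ν z - (if z = x then 1 else 0)) +
          (if z = x then 1 else 0)) := by
      refine Finset.sum_congr rfl fun z _ => ?_
      by_cases hz : z = x
      · rw [if_pos hz, hz]
        omega
      · rw [if_neg hz]
        rfl
    rw [hsum, Finset.sum_add_distrib, Finset.sum_ite_eq', Finset.sum_ite_eq']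
    congr 1
    by_cases hx : J.blk x = i
    · rw [if_pos (by simp [h4, hx]), if_pos (by simp [hx])]
    · rw [if_neg (by simp [h4, hx]), if_neg (by simp [hx])]

/-- The common `p`-th power factor. -/
noncomputable def tau (J : Jd X I) (p : ℕ) (a : I → ℕ) : X →₀ ℕ :=
  Finsupp.equivFunOnFinite.symm fun x => (if J.pos x = 0 then a (J.blk x) else 0) * p

omit [DecidableEq X] [Fintype I] [DecidableEq I] in
theorem tau_apply (J : Jd X I) (p : ℕ) (a : I → ℕ) (x : X) :
    tau J p a x = (if J.pos x = 0 then a (J.blk x) else 0) * p := rfl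

omit [DecidableEq X] [Fintype I] [DecidableEq I] in
theorem DX_tau (J : Jd X I) (p : ℕ) [hp : Fact p.Prime] [CharP k p] (a : I → ℕ) :
    DX k J.nx (monomial (tau J p a) (1 : k)) = 0 := by
  by_contra hne
  obtain ⟨μ, hμ⟩ := MvPolynomial.support_nonempty.2 hne
  obtain ⟨x, y, h1, -⟩ := wd_support _ _ hμ
  apply h1
  rw [tau_apply, Nat.cast_mul, CharP.cast_eq_zero k p, mul_zero]

variable {ι : V →ₗ[k] A} {e : Basis X k V} {symb : MvPolynomial X k →ₗ[k] A}

omit [DecidableEq X] [Fintype I] [DecidableEq I] in
theorem Lft_tau (h : PBW ι e symb) (J : Jd X I) (p : ℕ) [hp : Fact p.Prime] {D : A →ₗ[k] A}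
    (hD : ∀ a b, D (a * b) = D a * b + a * D b) (hξ : ∀ v, ∃ v', D (ι v ^ p - ι v') = 0)
    (a : I → ℕ) : ∃ m, Lft D ι symb m (monomial (tau J p a) (1 : k)) := by
  have h1 : (monomial (tau J p a) (1 : k)) =
      ∏ x : X, ((MvPolynomial.X x : MvPolynomial X k) ^ p) ^ (if J.pos x = 0 then a (J.blk x) else 0) := by
    rw [monomial_eq, C_1, one_mul, Finsupp.prod_fintype _ _ (fun x => pow_zero _)]
    refine Finset.prod_congr rfl fun x _ => ?_
    rw [tau_apply, ← pow_mul, mul_comm]
  rw [h1]
  exact ⟨_, Lft.prod h hD univ _ _ fun x _ => Lft.pow h hD (Lft.pth h p x (hξ _)) _⟩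

theorem Lft.main (h : PBW ι e symb) (J : Jd X I) (p : ℕ) [hp : Fact p.Prime] [CharP k p]
    (hsz : ∀ i, J.sz i ≤ p) {D : A →ₗ[k] A} (hD : ∀ a b, D (a * b) = D a * b + a * D b)
    (D₀ : V →ₗ[k] V) (hι : ∀ v, D (ι v) = ι (D₀ v)) (hp0 : D₀ ^ p = 0)
    (hnx : ∀ x, D₀ (e x) = (J.nx x).elim 0 e) (hξ : ∀ v, ∃ v', D (ι v ^ p - ι v') = 0) {m : ℕ}
    {s : MvPolynomial X k} (hs : s.IsHomogeneous m) (hDs : DX k J.nx s = 0) :
    Lft D ι symb m s := by
  rw [sum_comp (lab J p) s]
  refine Lft.sum _ _ fun c _ => ?_
  set t := comp (lab J p) c s with ht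
  have hDt : DX k J.nx t = 0 := comp_ker (lab J p) _ (lab_DX J p) hDs c
  have htm : t.IsHomogeneous m := by
    intro ν hν
    rw [ht, coeff_comp] at hν
    split_ifs at hν with h1
    · exact hs hν
    · exact absurd rfl hν
  have hlab : ∀ ν ∈ t.support, lab J p ν = c := by
    intro ν hν
    rw [MvPolynomial.mem_support_iff, ht, coeff_comp] at hν
    by_contra h1
    rw [if_neg h1] at hν
    exact hν rfl
  by_cases ht0 : t = 0
  · rw [ht0]
    exact Lft.zero
  set a : I → ℕ := fun i => (c i).1 with ha
  set r := t.divMonomial (tau J p a) with hr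
  have htop : ∀ ν ∈ t.support, ∀ x, J.pos x = 0 → ν x / p = a (J.blk x) := by
    intro ν hν x hx
    have h1 := congrFun (hlab ν hν) (J.blk x)
    have h2 : J.att (J.blk x) 0 = some x := (J.att_iff _ _ _).2 ⟨rfl, hx⟩
    have h3 := congrArg Prod.fst h1
    unfold lab at h3
    rw [h2] at h3
    exact h3
  have hle : ∀ ν ∈ t.support, tau J p a ≤ ν := by
    intro ν hν x
    rw [tau_apply]
    by_cases hx : J.pos x = 0
    · rw [if_pos hx, ← htop ν hν x hx]
      exact Nat.div_mul_le_self _ _
    · rw [if_neg hx, zero_mul]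
      exact Nat.zero_le _
  have hfac : t = monomial (tau J p a) 1 * r := by
    have h1 := divMonomial_add_modMonomial t (tau J p a)
    have h2 : t.modMonomial (tau J p a) = 0 := by
      ext μ
      rw [coeff_zero]
      by_cases h3 : tau J p a ≤ μ
      · rw [coeff_modMonomial_of_le _ h3]
      · rw [coeff_modMonomial_of_not_le _ h3]
        by_contra h4
        exact h3 (hle μ (MvPolynomial.mem_support_iff.2 h4))
    rw [h2, add_zero] at h1
    exact h1.symm
  have hr0 : r ≠ 0 := by
    intro h1
    rw [h1, mul_zero] at hfac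
    exact ht0 hfac
  have hDr : DX k J.nx r = 0 := by
    rw [hfac, Derivation.leibniz, DX_tau, smul_zero, add_zero, smul_eq_mul] at hDt
    refine (mul_eq_zero.1 hDt).resolve_left ?_
    exact fun h => one_ne_zero (monomial_eq_zero.1 h)
  have hrs : ∀ μ ∈ r.support, tau J p a + μ ∈ t.support := by
    intro μ hμ
    rw [MvPolynomial.mem_support_iff, hr, coeff_divMonomial] at hμ
    exact MvPolynomial.mem_support_iff.2 hμ
  have hrtop : ∀ μ ∈ r.support, ∀ x, J.pos x = 0 → μ x < p := by
    intro μ hμ x hx
    have h1 := htop _ (hrs μ hμ) x hx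
    rw [Finsupp.add_apply, tau_apply, if_pos hx, mul_comm, Nat.mul_add_div hp.out.pos] at h1
    have h2 : μ x / p = 0 := by omega
    exact (Nat.div_eq_zero_iff_lt hp.out.pos).1 h2
  set b : I → ℕ := fun i => (c i).2 - ∑ x ∈ univ.filter (fun x => J.blk x = i), tau J p a x with hb
  have hrb : ∀ μ ∈ r.support, ∀ i, ∑ x ∈ univ.filter (fun x => J.blk x = i), μ x = b i := by
    intro μ hμ i
    have h1 := congrArg Prod.snd (congrFun (hlab _ (hrs μ hμ)) i)
    unfold lab at h1
    simp only [Finsupp.add_apply, Finset.sum_add_distrib] at h1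
    show _ = (c i).2 - _
    rw [← h1]
    omega
  obtain ⟨mt, hmt⟩ := Lft_tau h J p hD hξ a
  have hrhom : r.IsHomogeneous (∑ i, b i) := by
    intro μ hμ
    rw [wt_one, Finsupp.degree_eq_sum]
    rw [← Finset.sum_fiberwise_of_maps_to (g := J.blk) (t := univ) (fun x _ => Finset.mem_univ _)]
    exact Finset.sum_congr rfl fun i _ => hrb μ (MvPolynomial.mem_support_iff.2 hμ) i
  have hfinal : ∀ mr, Lft D ι symb mr r → Lft D ι symb m t := by
    intro mr hmr
    have h1 := Lft.mul h hD hmt hmr
    rw [← hfac] at h1
    have h2 : mt + mr = m := h1.1.inj_right htm ht0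
    rwa [h2] at h1
  by_cases hcase : ∃ i, p < J.sz i + b i
  · obtain ⟨i, hi⟩ := hcase
    obtain ⟨g, hg⟩ := transport J p hsz i hi
      (fun μ hμ => ⟨hrb μ hμ i, fun x _ hx => hrtop μ hμ x hx⟩) hDr
    -- homogeneous component
    set T := ((DX k J.nx : Derivation k (MvPolynomial X k) (MvPolynomial X k)) :
        MvPolynomial X k →ₗ[k] MvPolynomial X k) ^ (p - 1) with hT
    have hgh : T (homogeneousComponent (∑ i, b i) g) = r := by
      have h1 : homogeneousComponent (∑ i, b i) (T g) = T (homogeneousComponent (∑ i, b i) g) := by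
        conv_lhs => rw [← sum_homogeneousComponent g]
        rw [map_sum, map_sum]
        have h2 : ∀ j ∈ Finset.range (g.totalDegree + 1),
            homogeneousComponent (∑ i, b i) (T (homogeneousComponent j g)) =
              if j = ∑ i, b i then T (homogeneousComponent j g) else 0 := by
          intro j _
          rw [hT]
          refine (homogeneousComponent_of_mem
            (pow_DX_hom J.nx (homogeneousComponent_isHomogeneous j g) (p - 1))).trans ?_
          by_cases h4 : j = ∑ i, b i
          · rw [if_pos h4.symm, if_pos h4]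
          · rw [if_neg (Ne.symm h4), if_neg h4]
        rw [Finset.sum_congr rfl h2, Finset.sum_ite_eq']
        split_ifs with h3
        · rfl
        · rw [Finset.mem_range, not_lt] at h3
          rw [homogeneousComponent_eq_zero _ _ (by omega), map_zero]
      rw [← h1, hg]
      exact (homogeneousComponent_of_mem hrhom).trans (by simp)
    have h3 := Lft.of_pow h p hD D₀ hι hp0 J.nx hnx
      (homogeneousComponent_isHomogeneous (∑ i, b i) g)
    rw [← hT, hgh] at h3
    exact hfinal _ h3
  · push Not at hcase
    have hbp : ∀ i, b i < p := by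
      intro i
      rcases Nat.eq_zero_or_pos (J.sz i) with h0 | h0
      · obtain ⟨μ, hμ⟩ := MvPolynomial.support_nonempty.2 hr0
        have h1 := hrb μ hμ i
        have h2 : univ.filter (fun x => J.blk x = i) = ∅ := by
          rw [Finset.filter_eq_empty_iff]
          intro x _ hx
          have := J.pos_lt x
          rw [hx, h0] at this
          omega
        rw [h2, Finset.sum_empty] at h1
        rw [← h1]
        exact hp.out.pos
      · have := hcase i
        omega
    set l : List I := (∑ i : I, Multiset.replicate (b i) i).toList with hl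
    have hcount : ∀ i, l.count i = b i := by
      intro i
      rw [hl, ← Multiset.coe_count, Multiset.coe_toList, Multiset.count_sum']
      simp only [Multiset.count_replicate]
      rw [Finset.sum_ite_eq']
      simp
    have hlen : l.length = ∑ i, b i := by
      rw [hl, Multiset.length_toList, Multiset.card_sum]
      simp
    have hBD : BD J.blk l r := by
      refine ⟨by rw [hlen]; exact hrhom, fun i => ?_⟩
      intro μ hμ
      rw [hcount, ← hrb μ (MvPolynomial.mem_support_iff.2 hμ) i, Finsupp.weight_apply,
        Finsupp.sum_fintype _ _ (fun x => by simp), Finset.sum_filter]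
      refine Finset.sum_congr rfl fun x _ => ?_
      by_cases hx : J.blk x = i
      · rw [if_pos hx, if_pos hx, smul_eq_mul, mul_one]
      · rw [if_neg hx, if_neg hx, smul_zero]
    exact hfinal _ (Lft.of_BD h p hD D₀ hι J.nx hnx J.blk (fun x y hxy => (J.nx_some hxy).1) l
      (fun i => by rw [hcount]; exact hbp i) hBD hDr)

/-- The main step for an adapted basis. -/
theorem E1_basis (h : PBW ι e symb) (J : Jd X I) (p : ℕ) [hp : Fact p.Prime] [CharP k p]
    (hsz : ∀ i, J.sz i ≤ p) {D : A →ₗ[k] A} (hD : ∀ a b, D (a * b) = D a * b + a * D b)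
    (D₀ : V →ₗ[k] V) (hι : ∀ v, D (ι v) = ι (D₀ v)) (hp0 : D₀ ^ p = 0)
    (hnx : ∀ x, D₀ (e x) = (J.nx x).elim 0 e) (hξ : ∀ v, ∃ v', D (ι v ^ p - ι v') = 0)
    {u : A} {y : V} (hu : D u = ι y) : ∃ z, D₀ z = y := by
  have hinj : Function.Injective ι := by
    rw [← LinearMap.ker_eq_bot, LinearMap.ker_eq_bot']
    intro v hv
    have h1 : symb (∑ x, e.repr v x • MvPolynomial.X x) = ι v := by
      rw [map_sum]
      simp only [map_smul, h.symb_X]
      rw [← Finset.sum_congr rfl fun x _ => (map_smul ι (e.repr v x) (e x)), ← map_sum,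
        e.sum_repr]
    have h2 : (∑ x, e.repr v x • (MvPolynomial.X x : MvPolynomial X k)).IsHomogeneous 1 :=
      IsHomogeneous.sum _ _ _ fun x _ =>
        (homogeneousSubmodule X k 1).smul_mem _ (isHomogeneous_X k x)
    have h3 := h.symb_lead h2 (by rw [h1, hv]; exact Submodule.zero_mem _)
    have h4 : ∀ x, e.repr v x = 0 := by
      intro x
      have h5 := congrArg (coeff (Finsupp.single x 1)) h3
      rw [coeff_sum, coeff_zero] at h5
      simp only [coeff_smul, coeff_X, smul_eq_mul, mul_ite, mul_one, mul_zero] at h5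
      rw [Finset.sum_eq_single x] at h5
      · simpa using h5
      · intro z _ hz
        rw [if_neg]
        intro h6
        exact hz (Finsupp.single_left_injective one_ne_zero h6)
      · intro h6
        exact absurd (Finset.mem_univ x) h6
    rw [← e.sum_repr v]
    exact Finset.sum_eq_zero fun x _ => by rw [h4, zero_smul]
  have key : ∀ m : ℕ, ∀ u : A, u ∈ G ι (m + 1 + 1) → D u = ι y → ∃ z, D₀ z = y := by
    intro m
    induction m with
    | zero =>
      intro u hu hDu
      obtain ⟨q, hq, hq2⟩ := h.symb_surj hu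
      obtain ⟨r, hr, hr2⟩ := h.symb_surj hq2
      rw [G_zero, Submodule.mem_bot, sub_eq_zero] at hr2
      have h1 : r = C (coeff 0 r) := by
        rw [← totalDegree_eq_zero_iff_eq_C, totalDegree_zero_iff_isHomogeneous]
        exact hr
      have h2 : symb r = coeff 0 r • (1 : A) := by
        conv_lhs => rw [h1]
        rw [← h.symb_one, ← map_smul, smul_eq_C_mul, mul_one]
      -- `q` is a linear form
      have h3 : ∃ v : V, symb q = ι v := by
        have h4 : q = ∑ x, coeff (Finsupp.single x 1) q • MvPolynomial.X x := by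
          ext μ
          rw [coeff_sum]
          simp only [coeff_smul, coeff_X, smul_eq_mul, mul_ite, mul_one, mul_zero]
          by_cases hμ : ∃ x, Finsupp.single x 1 = μ
          · obtain ⟨x, rfl⟩ := hμ
            rw [Finset.sum_eq_single x]
            · rw [if_pos rfl]
            · intro z _ hz
              rw [if_neg]
              intro h6
              exact hz (Finsupp.single_left_injective one_ne_zero h6)
            · intro h6
              exact absurd (Finset.mem_univ x) h6
          · rw [Finset.sum_eq_zero]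
            · by_contra h5
              apply hμ
              have h6 := hq h5
              rw [wt_one] at h6
              have h7 : Finsupp.degree μ = 1 := h6
              have hne : μ ≠ 0 := by
                rintro rfl
                simp at h7
              obtain ⟨x, hx⟩ := Finsupp.support_nonempty_iff.2 hne
              rw [Finsupp.mem_support_iff] at hx
              refine ⟨x, ?_⟩
              have h8 : μ = Finsupp.single x 1 + (μ - Finsupp.single x 1) := by
                ext z
                rw [Finsupp.add_apply, Finsupp.tsub_apply, Finsupp.single_apply]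
                split_ifs with h9
                · subst h9
                  omega
                · omega
              rw [h8, map_add, Finsupp.degree_single] at h7
              have h10 : Finsupp.degree (μ - Finsupp.single x 1) = 0 := by omega
              rw [Finsupp.degree_eq_zero_iff] at h10
              rw [h8, h10, add_zero]
            · intro x _
              rw [if_neg]
              intro h6
              exact hμ ⟨x, h6⟩
        refine ⟨∑ x, coeff (Finsupp.single x 1) q • e x, ?_⟩
        conv_lhs => rw [h4]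
        rw [map_sum, map_sum]
        refine Finset.sum_congr rfl fun x _ => ?_
        rw [map_smul, map_smul, h.symb_X]
      obtain ⟨v, hv⟩ := h3
      refine ⟨v, hinj ?_⟩
      rw [← hDu, ← hι, ← hv]
      have h5 : u = symb q + coeff 0 r • (1 : A) := by
        rw [← h2, ← hr2]
        abel
      rw [h5, map_add, map_smul, leib_one D hD, smul_zero, add_zero]
    | succ m ih =>
      intro u hu hDu
      obtain ⟨q, hq, hq2⟩ := h.symb_surj hu
      have h1 := h.compat D hD D₀ hι J.nx hnx hq
      have h2 := der_G ι D hD D₀ hι hq2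
      have h3 : symb (DX k J.nx q) ∈ G ι (m + 1 + 1) := by
        have h4 : ι y ∈ G ι (m + 1 + 1) := iota_mem_G ι y (by omega)
        rw [map_sub, hDu] at h2
        have h5 := Submodule.sub_mem _ (Submodule.sub_mem _ h4 h2) h1
        convert h5 using 1
        abel
      have h4 : DX k J.nx q = 0 := h.symb_lead (DX_hom J.nx hq) h3
      obtain ⟨-, v, hv, hv2⟩ := Lft.main h J p hsz hD D₀ hι hp0 hnx hξ hq h4
      refine ih (u - v) ?_ (by rw [map_sub, hv, hDu, sub_zero])
      have h5 := Submodule.sub_mem _ hq2 hv2
      convert h5 using 1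
      abel
  obtain ⟨d, hd⟩ := h.exhaust u
  exact key d u (G_mono ι (by omega) hd) hu

end main

end Pool.Agent.Helper58.KW
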