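import Mathlib
import Pool.Agent.Helper58.KW.Label
import Pool.Agent.Helper58.KW.Jordan

/-!
# Change of basis and the final statement
-/

namespace Pool.Agent.Helper58.KW

open MvPolynomial Module Finset

section cob

variable {k : Type*} [Field k] {V : Type*} [AddCommGroup V] [Module k V] {X X' : Type*}

/-- The linear form attached to a vector. -/
noncomputable def linf (e : Basis X k V) : V →ₗ[k] MvPolynomial X k :=
  e.constr k (fun x => MvPolynomial.X x)

theorem linf_basis (e : Basis X k V) (x : X) : linf e (e x) = MvPolynomial.X x :=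
  e.constr_basis k _ x

theorem linf_hom (e : Basis X k V) (v : V) : (linf e v).IsHomogeneous 1 := by
  have h1 : v ∈ Submodule.span k (Set.range e) := e.mem_span v
  have h2 : Submodule.span k (Set.range e) ≤ (homogeneousSubmodule X k 1).comap (linf e) := by
    refine Submodule.span_le.2 ?_
    rintro _ ⟨x, rfl⟩
    show (linf e (e x)).IsHomogeneous 1
    rw [linf_basis]
    exact isHomogeneous_X k x
  exact h2 h1

/-- Change of basis. -/
noncomputable def cob (e : Basis X k V) (e' : Basis X' k V) :
    MvPolynomial X' k →ₐ[k] MvPolynomial X k := aeval fun x' => linf e (e' x')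

theorem cob_linf (e : Basis X k V) (e' : Basis X' k V) (v : V) :
    cob e e' (linf e' v) = linf e v := by
  have h1 : (cob e e').toLinearMap ∘ₗ linf e' = linf e := by
    refine e'.ext fun x => ?_
    rw [LinearMap.comp_apply, linf_basis, AlgHom.toLinearMap_apply]
    unfold cob
    rw [aeval_X]
  exact LinearMap.congr_fun h1 v

theorem cob_cob (e : Basis X k V) (e' : Basis X' k V) (q : MvPolynomial X' k) :
    cob e' e (cob e e' q) = q := by
  have h1 : (cob e' e).comp (cob e e') = AlgHom.id k _ := by
    refine MvPolynomial.algHom_ext fun x => ?_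
    have h2 : cob e e' (MvPolynomial.X x) = linf e (e' x) := by
      unfold cob
      rw [aeval_X]
    rw [AlgHom.comp_apply, h2, cob_linf, linf_basis]
    rfl
  exact AlgHom.congr_fun h1 q

theorem cob_hom (e : Basis X k V) (e' : Basis X' k V) {d : ℕ} {q : MvPolynomial X' k}
    (h : q.IsHomogeneous d) : (cob e e' q).IsHomogeneous d := by
  have := h.aeval (n := 1) (fun x' => linf e (e' x')) (fun x' => linf_hom e (e' x'))
  rwa [one_mul] at this

variable {A : Type*} [Ring A] [Algebra k A] {ι : V →ₗ[k] A}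

theorem PBW.cob {e : Basis X k V} {symb : MvPolynomial X k →ₗ[k] A} (h : PBW ι e symb)
    (e' : Basis X' k V) : PBW ι e' (symb ∘ₗ (cob e e').toLinearMap) := by
  have h0 : ∀ v, symb (linf e v) = ι v := by
    intro v
    have h1 : symb ∘ₗ linf e = ι := by
      refine e.ext fun x => ?_
      rw [LinearMap.comp_apply, linf_basis, h.symb_X]
    exact LinearMap.congr_fun h1 v
  refine ⟨fun x => ?_, ?_, ?_, ?_, ?_, ?_, h.exhaust⟩
  · show symb (KW.cob e e' (MvPolynomial.X x)) = _
    rw [← linf_basis e', cob_linf, h0]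
  · show symb (KW.cob e e' 1) = _
    rw [map_one, h.symb_one]
  · intro d q hq
    exact h.symb_hom (cob_hom e e' hq)
  · intro d d' q r hq hr
    show symb (KW.cob e e' q) * symb (KW.cob e e' r) - symb (KW.cob e e' (q * r)) ∈ _
    rw [map_mul]
    exact h.symb_mul (cob_hom e e' hq) (cob_hom e e' hr)
  · intro d q hq hq2
    have h1 : KW.cob e e' q = 0 := h.symb_lead (cob_hom e e' hq) hq2
    rw [← cob_cob e e' q, h1, map_zero]
  · intro d a ha
    obtain ⟨q, hq, hq2⟩ := h.symb_surj ha
    refine ⟨KW.cob e' e q, cob_hom e' e hq, ?_⟩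
    show a - symb (KW.cob e e' (KW.cob e' e q)) ∈ _
    rw [cob_cob]
    exact hq2

end cob

section final

/-- The block structure of a Jordan basis. -/
def jd {d : ℕ} (n : Fin d → ℕ) : Jd (Σ i, Fin (n i)) (Fin d) where
  blk x := x.1
  pos x := x.2.1
  sz := n
  att i j := if h : j < n i then some ⟨i, ⟨j, h⟩⟩ else none
  att_iff i j x := by
    obtain ⟨i', j', hj'⟩ := x
    by_cases h : j < n i
    · rw [dif_pos h, Option.some.injEq]
      constructor
      · intro h1
        cases h1
        exact ⟨rfl, rfl⟩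
      · rintro ⟨h1, h2⟩
        dsimp only at h1 h2
        subst h1 h2
        rfl
    · rw [dif_neg h]
      constructor
      · intro h1
        exact absurd h1 (by simp)
      · rintro ⟨h1, h2⟩
        dsimp only at h1 h2
        subst h1 h2
        exact absurd hj' h
  att_none i j := by
    by_cases h : j < n i
    · rw [dif_pos h]
      simp [h]
    · rw [dif_neg h]
      simp only [true_iff]
      omega

variable {k : Type*} [Field k] {V : Type*} [AddCommGroup V] [Module k V]

theorem exists_jd [FiniteDimensional k V] (T : V →ₗ[k] V) (p : ℕ) (hT : T ^ p = 0) :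
    ∃ (d : ℕ) (n : Fin d → ℕ) (e : Basis (Σ i, Fin (n i)) k V), (∀ i, n i ≤ p) ∧
      ∀ x, T (e x) = ((jd n).nx x).elim 0 e := by
  obtain ⟨d, n, e, he⟩ := exists_jordan T p hT
  have h1 : ∀ x, T (e x) = ((jd n).nx x).elim 0 e := by
    rintro ⟨i, j⟩
    rw [he]
    unfold Jd.nx jd
    dsimp only
    split_ifs with h
    · rfl
    · rfl
  refine ⟨d, n, e, ?_, h1⟩
  intro i
  by_contra hlt
  have h2 : ∀ m (hm : m < n i), (T ^ m) (e ⟨i, ⟨0, by omega⟩⟩) = e ⟨i, ⟨m, hm⟩⟩ := by
    intro m
    induction m with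
    | zero => intro hm; rfl
    | succ m ih =>
      intro hm
      rw [pow_succ', Module.End.mul_apply, ih (by omega), he, dif_pos (show m + 1 < n i from hm)]
  have h3 := h2 p (by omega)
  rw [hT] at h3
  exact e.ne_zero _ h3.symm

/-- The main step: `D ^ p = 0` on the generating space. -/
theorem E1 {A : Type*} [Ring A] [Algebra k A] (p : ℕ) [Fact p.Prime] [CharP k p]
    [FiniteDimensional k V] (ι : V →ₗ[k] A) {X : Type*} (e : Basis X k V)
    (symb : MvPolynomial X k →ₗ[k] A) (h : PBW ι e symb) (D₀ : V →ₗ[k] V) (hD₀ : D₀ ^ p = 0)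
    (D : A →ₗ[k] A) (hD : ∀ a b, D (a * b) = D a * b + a * D b) (hDι : ∀ v, D (ι v) = ι (D₀ v))
    (hξ : ∀ v, ∃ v', D (ι v ^ p - ι v') = 0) {u : A} {y : V} (hu : D u = ι y) :
    ∃ z, D₀ z = y := by
  obtain ⟨d, n, e', hn, he'⟩ := exists_jd D₀ p hD₀
  exact E1_basis (h.cob e') (jd n) p hn hD D₀ hDι hD₀ he' hξ hu

end final

end Pool.Agent.Helper58.KW
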