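import Mathlib
import Pool.Agent.Helper58.KW.Defs
import Pool.Agent.Helper56.SKR.Dom

/-!
# The enveloping algebra of a Lie algebra has a PBW theorem
-/

namespace Pool.Agent.Helper58.KW

open Module Pool.Agent.Helper56.SKW.PBW Pool.Agent.Helper56.SKU Pool.Agent.Helper56.SKR

variable {k : Type*} [Field k] {X : Type*} [Fintype X] [LinearOrder X] {L : Type*}
  [AddCommGroup L] [Module k L] (g : Alg k X L)

omit [Fintype X] in
theorem FF_eq_G (d : ℕ) : FF k (gen g) d = G (tau g) d := by
  rw [G_eq_basis (tau g) g.e]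
  unfold FF
  congr 1
  ext u
  constructor
  · rintro ⟨l, hl, rfl⟩
    exact ⟨l, hl, rfl⟩
  · rintro ⟨l, hl, rfl⟩
    exact ⟨l, hl, rfl⟩

theorem sw_single (x : X) : sw (Finsupp.single x 1 : X →₀ ℕ) = [x] := by
  have h1 : (sw (Finsupp.single x 1 : X →₀ ℕ)).length = 1 := by
    rw [length_sw, Finset.sum_eq_single x]
    · simp
    · intro y _ hy
      rw [Finsupp.single_eq_of_ne hy]
    · intro h
      exact absurd (Finset.mem_univ x) h
  obtain ⟨y, hy⟩ := List.length_eq_one_iff.1 h1
  have h2 := count_sw (Finsupp.single x 1 : X →₀ ℕ) x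
  rw [hy, Finsupp.single_eq_same] at h2
  rw [hy]
  by_cases h : y = x
  · rw [h]
  · rw [List.count_singleton, if_neg (by simpa using h)] at h2
    exact absurd h2 (by simp)

theorem symb_gen (x : X) : symb g (MvPolynomial.X x) = tau g (g.e x) := by
  have h1 : (MvPolynomial.X x : MvPolynomial X k) = MvPolynomial.monomial (Finsupp.single x 1) 1 :=
    rfl
  rw [h1, symb_monomial, one_smul]
  unfold mon
  rw [sw_single]
  simp [pwf, gen]

theorem symb_unit : symb g 1 = 1 := by
  have h1 : (1 : MvPolynomial X k) = MvPolynomial.monomial 0 1 := rfl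
  rw [h1, symb_monomial, one_smul]
  unfold mon
  have h2 : sw ((0 : X →₀ ℕ) : X → ℕ) = [] := by
    apply List.eq_nil_of_length_eq_zero
    rw [length_sw]
    simp
  rw [h2]
  rfl

theorem PBW_env (h2 : (2 : k) ≠ 0) (hev : ∀ x, g.par x = false) :
    PBW (tau g) g.e (symb g) := by
  refine ⟨symb_gen g, symb_unit g, ?_, ?_, ?_, ?_, ?_⟩
  · intro d q hq
    rw [← FF_eq_G]
    exact symb_hom g hq
  · intro d d' q r hq hr
    rw [← FF_eq_G]
    exact symb_mul g hev hq hr
  · intro d q hq h
    rw [← FF_eq_G] at h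
    exact symb_lead h2 hev hq h
  · intro d a ha
    rw [← FF_eq_G] at ha ⊢
    have h3 := FF_low g h2 _ ha
    clear ha
    induction h3 using Submodule.span_induction with
    | mem a ha =>
      obtain ⟨ν, hν, rfl⟩ := ha
      have hν' : ∑ x, ν.1 x < d + 1 := hν
      by_cases hd : ∑ x, ν.1 x = d
      · refine ⟨MvPolynomial.monomial (Finsupp.equivFunOnFinite.symm ν.1) 1, ?_, ?_⟩
        · apply MvPolynomial.isHomogeneous_monomial
          rw [Finsupp.degree_eq_sum, ← hd]
          rfl
        · have h4 : symb g (MvPolynomial.monomial (Finsupp.equivFunOnFinite.symm ν.1) 1) =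
              pwf (gen g) (sw ν.1) := by
            rw [symb_monomial, one_smul]
            rfl
          rw [h4]
          show pwf (gen g) (sw ν.1) - pwf (gen g) (sw ν.1) ∈ _
          rw [sub_self]
          exact Submodule.zero_mem _
      · refine ⟨0, MvPolynomial.isHomogeneous_zero _ _ _, ?_⟩
        rw [map_zero, sub_zero]
        refine FF_mem k _ ?_
        rw [length_sw]
        omega
    | zero =>
      refine ⟨0, MvPolynomial.isHomogeneous_zero _ _ _, ?_⟩
      rw [map_zero, sub_zero]
      exact Submodule.zero_mem _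
    | add x y _ _ hx hy =>
      obtain ⟨q, hq, hq2⟩ := hx
      obtain ⟨r, hr, hr2⟩ := hy
      refine ⟨q + r, hq.add hr, ?_⟩
      have := Submodule.add_mem _ hq2 hr2
      rw [map_add]
      convert this using 1
      abel
    | smul c x _ hx =>
      obtain ⟨q, hq, hq2⟩ := hx
      refine ⟨c • q, (MvPolynomial.homogeneousSubmodule X k d).smul_mem c hq, ?_⟩
      rw [map_smul, ← smul_sub]
      exact Submodule.smul_mem _ _ hq2
  · intro a
    have h1 : a ∈ (⊤ : Submodule k (Env g)) := trivial
    rw [← env_gen g] at h1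
    induction h1 using Submodule.span_induction with
    | mem a ha =>
      obtain ⟨l, rfl⟩ := ha
      refine ⟨l.length + 1, ?_⟩
      rw [← FF_eq_G]
      exact FF_mem k _ (by omega)
    | zero => exact ⟨0, Submodule.zero_mem _⟩
    | add x y _ _ hx hy =>
      obtain ⟨d, hd⟩ := hx
      obtain ⟨e, he⟩ := hy
      exact ⟨max d e, Submodule.add_mem _ (G_mono _ (le_max_left _ _) hd)
        (G_mono _ (le_max_right _ _) he)⟩
    | smul c x _ hx =>
      obtain ⟨d, hd⟩ := hx
      exact ⟨d, Submodule.smul_mem _ _ hd⟩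

end Pool.Agent.Helper58.KW
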